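import Pool.Agent.Run7.h803.Main

open Finset

namespace Run7.h803

set_option linter.unusedSectionVars false

universe u

theorem sort_three {a b c : ℤ} (hab : a ≠ b) (hac : a ≠ c) (hbc : b ≠ c) :
    ∃ x1 x2 x3 : ℤ, x1 < x2 ∧ x2 < x3 ∧ ({a, b, c} : Set ℤ) = {x1, x2, x3} := by
  rcases lt_or_gt_of_ne hab with h1 | h1
  · rcases lt_or_gt_of_ne hbc with h2 | h2
    · exact ⟨a, b, c, h1, h2, rfl⟩
    · rcases lt_or_gt_of_ne hac with h3 | h3
      · exact ⟨a, c, b, h3, h2, by ext x; simp; tauto⟩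
      · exact ⟨c, a, b, h3, h1, by ext x; simp; tauto⟩
  · rcases lt_or_gt_of_ne hac with h2 | h2
    · exact ⟨b, a, c, h1, h2, by ext x; simp; tauto⟩
    · rcases lt_or_gt_of_ne hbc with h3 | h3
      · exact ⟨b, c, a, h3, h2, by ext x; simp; tauto⟩
      · exact ⟨c, b, a, h3, h1, by ext x; simp; tauto⟩

variable {p : ℕ} [Fact p.Prime]

/-- Divisibility of the number of support points on affine `K`-lines. -/
theorem line_dvd (hp5 : 5 ≤ p) {L : Type u} [Field L] [Fintype L] [DecidableEq L]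
    [Algebra (ZMod p) L] {K : Type u} [Field K] [Fintype K] [Algebra (ZMod p) K] [Algebra K L]
    [IsScalarTower (ZMod p) K L] (h2 : Module.finrank K L = 2) {s g k : ℕ}
    (hcK : Fintype.card K = p ^ k) (hgk : g ≤ k)
    (hbK : Function.Bijective (fun x : K => x ^ s)) {w : L → ℤ}
    (hw : ∀ a, W (can p L) s a = w a) {wK : K → ℤ} (hwK : ∀ a, W (can p K) s a = wK a)
    (hdK : ∀ b, (p : ℤ) ^ g ∣ wK b) {α β : ℤ} (hα : 0 < α) (hβ : 0 < β) (pα : ¬ (p : ℤ) ∣ α)
    (hsum : α + β = (p : ℤ) ^ g)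
    (hall : ∀ a, w a = 0 ∨ w a = (p : ℤ) ^ k * α ∨ w a = -((p : ℤ) ^ k * β))
    (P g0 : L) (hg0 : g0 ≠ 0) :
    p ^ g ∣ (univ.filter fun y : K => P + algebraMap K L y * g0 ∈ IsWeil.T w).card := by
  classical
  have hp : p.Prime := Fact.out
  have hpZ : Prime (p : ℤ) := Nat.prime_iff_prime_int.1 hp
  have hp0 : (0 : ℤ) < p := by exact_mod_cast hp.pos
  have hK2 : (2 : K) ≠ 0 := Ring.two_ne_zero (ringChar_ne_two hp5 K)
  set r : ℤ := (p : ℤ) ^ k with hr
  have hrpos : 0 < r := by positivity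
  have hrK : (Fintype.card K : ℤ) = r := by rw [hcK]; push_cast; rfl
  -- divisibility of the line sum
  have hline := line_sum h2 hK2 (can_primitive (p := p) K) hbK P g0 hg0
  rw [can_lift] at hline
  simp only [hw, hwK] at hline
  have hdiv : r * (p : ℤ) ^ g ∣ ∑ y : K, w (P + algebraMap K L y * g0) := by
    rcases hline with ⟨b, hb⟩ | hb
    · have h3 : ∑ y : K, w (P + algebraMap K L y * g0) = (Fintype.card K : ℤ) * wK b := by
        exact_mod_cast hb
      rw [h3, hrK]
      exact mul_dvd_mul_left _ (hdK b)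
    · have h3 : ∑ y : K, w (P + algebraMap K L y * g0) = (Fintype.card K : ℤ) ^ 2 := by
        exact_mod_cast hb
      rw [h3, hrK, sq]
      exact mul_dvd_mul_left _ (pow_dvd_pow _ hgk)
  -- pointwise relation
  have hpt : ∀ x : L, w x = r * (α * (if x ∈ IsWeil.T w then 1 else 0) -
      (p : ℤ) ^ g * (if w x = -(r * β) then 1 else 0)) := by
    intro x
    have hT : x ∈ IsWeil.T w ↔ w x ≠ 0 := by
      unfold IsWeil.T
      simp
    have hneg : -(r * β) < 0 := by
      have := mul_pos hrpos hβ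
      linarith
    have hposi : 0 < r * α := mul_pos hrpos hα
    rcases hall x with h' | h' | h'
    · rw [if_neg (by rw [hT]; simp [h']), h', if_neg (by linarith)]; ring
    · rw [if_pos (by rw [hT, h']; exact hposi.ne'), h', if_neg (by linarith)]; ring
    · rw [if_pos (by rw [hT, h']; exact hneg.ne), h', if_pos rfl, ← hsum]; ring
  have hsumeq : ∑ y : K, w (P + algebraMap K L y * g0) =
      r * (α * ((univ.filter fun y : K => P + algebraMap K L y * g0 ∈ IsWeil.T w).card : ℤ) -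
        (p : ℤ) ^ g * ∑ y : K, (if w (P + algebraMap K L y * g0) = -(r * β) then 1 else 0)) := by
    rw [Finset.sum_congr rfl fun y _ => hpt (P + algebraMap K L y * g0), ← Finset.mul_sum,
      Finset.sum_sub_distrib, ← Finset.mul_sum, ← Finset.mul_sum, Finset.card_filter]
    push_cast
    rfl
  rw [hsumeq] at hdiv
  have h3 := (mul_dvd_mul_iff_left hrpos.ne').1 hdiv
  have h4 : (p : ℤ) ^ g ∣
      α * ((univ.filter fun y : K => P + algebraMap K L y * g0 ∈ IsWeil.T w).card : ℤ) := by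
    have := dvd_add h3 (dvd_mul_right ((p : ℤ) ^ g)
      (∑ y : K, (if w (P + algebraMap K L y * g0) = -(r * β) then 1 else 0)))
    simpa using this
  have h5 : IsCoprime ((p : ℤ) ^ g) α := ((Prime.coprime_iff_not_dvd hpZ).2 pα).pow_left
  have h6 := h5.dvd_of_dvd_mul_left h4
  exact_mod_cast h6

/-- The structure of a three-valued spectrum in degree a power of two. -/
theorem three_structure (hp5 : 5 ≤ p) (L : Type u) [Field L] [Fintype L] [Algebra (ZMod p) L]
    {k s : ℕ} (hL : Module.finrank (ZMod p) L = 2 ^ k) (hcop : s.Coprime (Fintype.card L - 1))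
    (h3 : (Set.range fun a : Lˣ => W (can p L) s (a : L)).ncard = 3) :
    ∃ (l e f α β : ℕ), k = l + 1 ∧ 1 ≤ e ∧ e ≤ f ∧ e + f = 2 ^ l ∧ 0 < β ∧ β < α ∧
      α + β = p ^ e ∧ ¬ p ∣ α ∧ ¬ p ∣ β ∧ α ∣ p ^ f + 1 ∧ β ∣ p ^ f - 1 ∧
      (Set.range fun a : Lˣ => W (can p L) s (a : L)) =
        {0, (p : ℂ) ^ (2 ^ l) * α, -((p : ℂ) ^ (2 ^ l) * β)} ∧
      (α : ℤ) * β * (1 + ((p : ℤ) ^ (2 ^ l) + 1) * ((p : ℤ) ^ e - 1)) ≤
        (p : ℤ) ^ (2 ^ l) * ((p : ℤ) ^ (2 ^ l) + β - α) := by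
  classical
  have hp : p.Prime := Fact.out
  have hp0 : (0 : ℤ) < p := by exact_mod_cast hp.pos
  have hpZ : Prime (p : ℤ) := Nat.prime_iff_prime_int.1 hp
  have hcard : Fintype.card L = p ^ (2 ^ k) := by
    rw [← FiniteField.pow_finrank_eq_card p L, hL]
  have h2k : 1 ≤ 2 ^ k := Nat.one_le_two_pow
  have hq5 : 5 ≤ Fintype.card L := by
    rw [hcard]
    calc 5 ≤ p := hp5
      _ = p ^ 1 := (pow_one p).symm
      _ ≤ p ^ (2 ^ k) := Nat.pow_le_pow_right hp.pos h2k
  have hpodd : Odd p := hp.odd_of_ne_two (by omega)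
  have hqodd : Odd (Fintype.card L) := by rw [hcard]; exact hpodd.pow
  have hs : Odd s := by
    rw [← Nat.not_even_iff_odd]
    intro hev
    have h4 : 2 ∣ Nat.gcd s (Fintype.card L - 1) := by
      apply Nat.dvd_gcd hev.two_dvd
      obtain ⟨t, ht⟩ := hqodd
      exact ⟨t, by omega⟩
    rw [hcop] at h4
    omega
  have hs0 : s ≠ 0 := by
    rintro rfl
    exact absurd hs (by decide)
  have hb := pow_bij hs0 hcop
  -- index the values
  obtain ⟨A, B, C, hAB, hAC, hBC, hset⟩ := Set.ncard_eq_three.1 h3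
  have hmem : ∀ a : Lˣ, W (can p L) s (a : L) = A ∨ W (can p L) s (a : L) = B ∨
      W (can p L) s (a : L) = C := by
    intro a
    have : W (can p L) s (a : L) ∈ ({A, B, C} : Set ℂ) := by
      rw [← hset]; exact ⟨a, rfl⟩
    simpa using this
  have hfix : ∀ j : ZMod p, j ^ s = j := by
    set v : Fin 3 → ℂ := ![A, B, C] with hv
    have hvinj : Function.Injective v := by
      intro i j hij
      fin_cases i <;> fin_cases j <;> simp_all [v]
    have hex : ∀ a : Lˣ, ∃ i : Fin 3, W (can p L) s (a : L) = v i := by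
      intro a
      rcases hmem a with h' | h' | h'
      · exact ⟨0, by simp [v, h']⟩
      · exact ⟨1, by simp [v, h']⟩
      · exact ⟨2, by simp [v, h']⟩
    choose i hi using hex
    have hsurj : Function.Surjective i := by
      intro j
      have : v j ∈ Set.range fun a : Lˣ => W (can p L) s (a : L) := by
        rw [hset]
        fin_cases j <;> simp [v]
      obtain ⟨a, ha⟩ := this
      refine ⟨a, hvinj ?_⟩
      rw [← hi a]
      exact ha
    exact fix_of_uu hb fun m hm => uu_eq_one hp5 h2k hcard hb hs i hsurj v hvinj hi hm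
  obtain ⟨w, hw, hpw⟩ := exists_w (F := L) (p := p) hb hfix
  have hIs := isWeil_of hb hs hw
  -- integer values
  obtain ⟨aA, haA⟩ : ∃ a : Lˣ, W (can p L) s (a : L) = A := by
    have : A ∈ Set.range fun a : Lˣ => W (can p L) s (a : L) := by rw [hset]; simp
    exact this
  obtain ⟨aB, haB⟩ : ∃ a : Lˣ, W (can p L) s (a : L) = B := by
    have : B ∈ Set.range fun a : Lˣ => W (can p L) s (a : L) := by rw [hset]; simp
    exact this
  obtain ⟨aC, haC⟩ : ∃ a : Lˣ, W (can p L) s (a : L) = C := by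
    have : C ∈ Set.range fun a : Lˣ => W (can p L) s (a : L) := by rw [hset]; simp
    exact this
  rw [hw] at haA haB haC
  have iAB : w aA ≠ w aB := by
    intro h; apply hAB; rw [← haA, ← haB, h]
  have iAC : w aA ≠ w aC := by
    intro h; apply hAC; rw [← haA, ← haC, h]
  have iBC : w aB ≠ w aC := by
    intro h; apply hBC; rw [← haB, ← haC, h]
  obtain ⟨x1, x2, x3, h12, h23, hxs⟩ := sort_three iAB iAC iBC
  have hrange : (Set.range fun a : Lˣ => w (a : L)) = {x1, x2, x3} := by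
    rw [← hxs]
    ext x
    constructor
    · rintro ⟨a, rfl⟩
      have := hmem a
      rw [hw, ← haA, ← haB, ← haC] at this
      simpa using this
    · intro hx
      simp only [Set.mem_insert_iff, Set.mem_singleton_iff] at hx
      rcases hx with rfl | rfl | rfl
      · exact ⟨aA, rfl⟩
      · exact ⟨aB, rfl⟩
      · exact ⟨aC, rfl⟩
  have hall : ∀ a : L, a ≠ 0 → w a = x1 ∨ w a = x2 ∨ w a = x3 := by
    intro a ha
    have : w a ∈ ({x1, x2, x3} : Set ℤ) := by
      rw [← hrange]; exact ⟨Units.mk0 a ha, rfl⟩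
    simpa using this
  obtain ⟨a1, ha1⟩ : ∃ a : Lˣ, w (a : L) = x1 := by
    have : x1 ∈ Set.range fun a : Lˣ => w (a : L) := by rw [hrange]; simp
    exact this
  obtain ⟨a2, ha2⟩ : ∃ a : Lˣ, w (a : L) = x2 := by
    have : x2 ∈ Set.range fun a : Lˣ => w (a : L) := by rw [hrange]; simp
    exact this
  obtain ⟨a3, ha3⟩ : ∃ a : Lˣ, w (a : L) = x3 := by
    have : x3 ∈ Set.range fun a : Lˣ => w (a : L) := by rw [hrange]; simp
    exact this
  obtain ⟨hx1, hx2, hx3⟩ := hIs.three_form hp (by omega) h2k hcard hpw h12 h23 hall a1.ne_zero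
    a2.ne_zero a3.ne_zero ha1 ha2 ha3
  subst hx2
  -- not additive
  have hnadd : ¬ ∀ y z : L, (y + z) ^ s = y ^ s + z ^ s := by
    intro hadd
    rcases additive_values (ψ := can p L) hb hadd (a1 : L) with h' | h'
    · rw [hw, ha1] at h'
      have : x1 = 0 := by exact_mod_cast h'
      linarith
    · rw [hw, ha1] at h'
      have : x1 = (Fintype.card L : ℤ) := by exact_mod_cast h'
      have h4 : (0 : ℤ) ≤ (Fintype.card L : ℤ) := by positivity
      linarith
  have hk : k ≠ 0 := by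
    rintro rfl
    exact hnadd (add_of_finrank_one hfix (by simpa using hL))
  obtain ⟨l, rfl⟩ := Nat.exists_eq_succ_of_ne_zero hk
  have hV := val_bound hp5 hs0 hs hfix l L hL hcop hnadd w hw
  have hm2 : 2 ≤ IsWeil.m (cf hb) (1 : L) := by
    unfold IsWeil.m
    have h4 : ({0, 1} : Finset L) ⊆ univ.filter fun t : L => cf hb t = 1 := by
      intro t ht
      simp only [Finset.mem_insert, Finset.mem_singleton] at ht
      rw [Finset.mem_filter]
      refine ⟨Finset.mem_univ _, ?_⟩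
      rw [cf_eq_one_iff]
      rcases ht with rfl | rfl
      · simp [Fp, zero_pow hs0]
      · simp [Fp, zero_pow hs0]
    have h5 := Finset.card_le_card h4
    rw [Finset.card_pair zero_ne_one] at h5
    exact_mod_cast h5
  have hall' : ∀ a : L, w a = 0 ∨ w a = x3 ∨ w a = x1 := by
    intro a
    by_cases ha : a = 0
    · left; rw [ha]; exact hIs.zero
    · rcases hall a ha with h' | h' | h'
      · right; right; exact h'
      · left; exact h'
      · right; left; exact h'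
  obtain ⟨g, f, α, β, eA, eB, hα, hβ, pα, pβ, hsum, hg1, hgf, hgfk, hβα, dα, dβ, hTc⟩ :=
    hIs.structure_thm hp hp5 (Nat.one_le_two_pow (n := l)) (by rw [hcard]; congr 1; exact pow_succ' 2 l) hx3 hx1
      hall' ⟨_, ha3⟩ ⟨_, ha1⟩ hm2 hV
  -- l ≥ 1
  have hl1 : 1 ≤ l := by
    by_contra hl
    have : l = 0 := by omega
    subst this
    omega
  obtain ⟨l', rfl⟩ := Nat.exists_eq_succ_of_ne_zero (by omega : l ≠ 0)
  obtain ⟨K, hKf, hK1, hK2, hcK, hcopK⟩ := sub_data L hL hcop
  have hbK := pow_bij hs0 hcopK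
  obtain ⟨wK, hwK, -⟩ := exists_w (F := K) (p := p) hbK hfix
  have hIsK := isWeil_of hbK hs hwK
  have hdw : ∀ a, (p : ℤ) ^ (2 ^ (l' + 1)) ∣ w a := by
    intro a
    rcases hall' a with h' | h' | h'
    · rw [h']; exact dvd_zero _
    · rw [h', eA]; exact dvd_mul_right _ _
    · rw [h', eB]; exact (dvd_neg).2 (dvd_mul_right _ _)
  have h2l : 1 ≤ 2 ^ l' := Nat.one_le_two_pow
  have hdK' : ∀ b : K, b ≠ 0 → (p : ℤ) ^ (2 ^ l') ∣ wK b := by
    have hconv : ∀ c : K, c ≠ 0 → (p : ℤ) ^ (2 * (2 ^ l' - 1) + 1) ∣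
        ∑ b ∈ univ.erase (0 : K), wK b * wK (c / b) := by
      intro c hc
      have h4 := norm_relation (L := L) hK2 (ringChar_ne_two hp5 K) (can_primitive (p := p) K)
        hbK hb hc
      rw [can_lift] at h4
      simp only [hw, hwK] at h4
      have h5 : ∑ a ∈ univ.filter (fun a : L => Algebra.norm K a = c), w a =
          ∑ b ∈ univ.erase (0 : K), wK b * wK (c / b) := by exact_mod_cast h4
      rw [← h5]
      refine Finset.dvd_sum fun a _ => ?_
      refine dvd_trans (pow_dvd_pow _ ?_) (hdw a)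
      have : 2 ^ (l' + 1) = 2 * 2 ^ l' := by ring
      omega
    have h6 := conv_half (p := p) (N := 2 ^ (l' + 1)) Nat.one_le_two_pow hcK (2 ^ l' - 1) wK hconv
    intro b hb0
    have := h6 b hb0
    rwa [Nat.sub_add_cancel h2l] at this
  have hgl : g ≤ 2 ^ l' := by
    have : 2 ^ (l' + 1) = 2 * 2 ^ l' := by ring
    have h4 : g + f = 2 ^ (l' + 1) := hgfk
    omega
  have hdK : ∀ b : K, (p : ℤ) ^ g ∣ wK b := by
    intro b
    by_cases hb0 : b = 0
    · rw [hb0, hIsK.zero]; exact dvd_zero _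
    · exact dvd_trans (pow_dvd_pow _ hgl) (hdK' b hb0)
  have hgl' : g ≤ 2 ^ (l' + 1) := by
    have h4 : g + f = 2 ^ (l' + 1) := hgfk
    omega
  have hall'' : ∀ a, w a = 0 ∨ w a = (p : ℤ) ^ (2 ^ (l' + 1)) * α ∨
      w a = -((p : ℤ) ^ (2 ^ (l' + 1)) * β) := by
    intro a
    rw [← eA, ← eB]
    exact hall' a
  have hPT : (a3 : L) ∈ IsWeil.T w := by
    unfold IsWeil.T
    rw [Finset.mem_filter]
    exact ⟨Finset.mem_univ _, by rw [ha3]; exact hx3.ne'⟩
  have hcount := line_count (K := K) hK2 hPT (N := p ^ g) (fun g0 hg0 =>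
    line_dvd hp5 hK2 hcK hgl' hbK hw hwK hdK hα hβ pα hsum hall'' (a3 : L) g0 hg0)
  rw [hcK] at hcount
  push_cast at hcount
  -- pass to natural numbers
  obtain ⟨α', rfl⟩ := Int.eq_ofNat_of_zero_le hα.le
  obtain ⟨β', rfl⟩ := Int.eq_ofNat_of_zero_le hβ.le
  refine ⟨l' + 1, g, f, α', β', rfl, hg1, hgf, hgfk, by exact_mod_cast hβ, by exact_mod_cast hβα,
    by exact_mod_cast hsum, fun h => pα (by exact_mod_cast h), fun h => pβ (by exact_mod_cast h),
    by exact_mod_cast dα, ?_, ?_, ?_⟩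
  · have hpf : 1 ≤ p ^ f := Nat.one_le_pow _ _ hp.pos
    have h4 : ((p ^ f - 1 : ℕ) : ℤ) = (p : ℤ) ^ f - 1 := by
      rw [Nat.cast_sub hpf]; push_cast; rfl
    rw [← h4] at dβ
    exact_mod_cast dβ
  · have h4 : (Set.range fun a : Lˣ => W (can p L) s (a : L)) =
        (fun z : ℤ => (z : ℂ)) '' (Set.range fun a : Lˣ => w (a : L)) := by
      rw [← Set.range_comp]
      congr 1
      ext a
      simp [hw]
    rw [h4, hrange, eA, eB]
    ext z
    simp only [Set.image_insert_eq, Set.image_singleton, Set.mem_insert_iff,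
      Set.mem_singleton_iff]
    push_cast
    tauto
  · calc (α' : ℤ) * β' * (1 + ((p : ℤ) ^ (2 ^ (l' + 1)) + 1) * ((p : ℤ) ^ g - 1))
        ≤ (α' : ℤ) * β' * (IsWeil.T w).card :=
          mul_le_mul_of_nonneg_left hcount (mul_pos hα hβ).le
      _ = _ := hTc

/-- The case of degree four is excluded by the inequality. -/
theorem no_deg_four (hp5 : 5 ≤ p) {α β : ℕ} (hβ : 0 < β) (hβα : β < α) (hsum : α + β = p ^ 1)
    (dα : α ∣ p ^ 1 + 1)
    (hin : (α : ℤ) * β * (1 + ((p : ℤ) ^ 2 + 1) * ((p : ℤ) ^ 1 - 1)) ≤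
        (p : ℤ) ^ 2 * ((p : ℤ) ^ 2 + β - α)) : False := by
  obtain ⟨t, ht⟩ := dα
  rw [pow_one] at hsum ht hin
  have ht2 : 2 ≤ t := by
    by_contra hlt
    have h1 : t = 0 ∨ t = 1 := by omega
    rcases h1 with rfl | rfl
    · omega
    · omega
  have h1 : 2 * α ≤ p + 1 := by
    rw [ht, mul_comm]
    exact Nat.mul_le_mul_left _ ht2
  have h2 : p + 1 = 2 * α := by omega
  have h3 : (p : ℤ) = 2 * α - 1 := by
    have : (p : ℤ) + 1 = 2 * α := by exact_mod_cast h2
    linarith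
  have h4 : (β : ℤ) = α - 1 := by
    have : (α : ℤ) + β = p := by exact_mod_cast hsum
    linarith
  have h5 : (3 : ℤ) ≤ α := by
    have : (5 : ℤ) ≤ p := by exact_mod_cast hp5
    linarith
  rw [h4, h3] at hin
  have h6 : (α : ℤ) * (α - 1) * (1 + ((2 * α - 1) ^ 2 + 1) * (2 * α - 1 - 1)) -
      (2 * α - 1) ^ 2 * ((2 * α - 1) ^ 2 + (α - 1) - α) =
      α * (α - 1) * (8 * α * (α - 3) * (α - 1) + 4 * α - 7) := by ring
  have h7 : (0 : ℤ) ≤ 8 * α * (α - 3) * (α - 1) :=
    mul_nonneg (mul_nonneg (by linarith) (by linarith)) (by linarith)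
  have h8 : (0 : ℤ) < α * (α - 1) * (8 * α * (α - 3) * (α - 1) + 4 * α - 7) :=
    mul_pos (mul_pos (by linarith) (by linarith)) (by linarith)
  linarith

end Run7.h803
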