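import Mathlib

open Finset

namespace Run7.h803

set_option linter.unusedSectionVars false

/-- A square-zero function on a finite group of exponent prime to `p` vanishes modulo `p`. -/
theorem conv_sq_zero {p N : ℕ} [Fact p.Prime] (hN : 1 ≤ N) {G : Type*} [CommGroup G] [Fintype G]
    (hG : ∀ g : G, g ^ (p ^ N) = g) (f : G → ZMod p)
    (hf : ∀ c : G, ∑ a : G, f a * f (c / a) = 0) (b : G) : f b = 0 := by
  classical
  have hinj : Function.Injective (algebraMap (ZMod p) (MonoidAlgebra (ZMod p) G)) :=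
    (algebraMap (ZMod p) (MonoidAlgebra (ZMod p) G)).injective
  have : CharP (MonoidAlgebra (ZMod p) G) p := charP_of_injective_algebraMap hinj p
  set x : MonoidAlgebra (ZMod p) G := ∑ a : G, MonoidAlgebra.single a (f a) with hx
  have hxx : x * x = 0 := by
    rw [hx, Finset.sum_mul_sum]
    have h1 : ∀ a : G, ∑ b : G, MonoidAlgebra.single a (f a) * MonoidAlgebra.single b (f b) =
        ∑ c : G, MonoidAlgebra.single c (f a * f (c / a)) := by
      intro a
      rw [← Equiv.sum_comp (Equiv.mulLeft a) (fun c => MonoidAlgebra.single c (f a * f (c / a)))]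
      refine Finset.sum_congr rfl fun b _ => ?_
      rw [MonoidAlgebra.single_mul_single]
      simp
    simp only [h1]
    rw [Finset.sum_comm]
    refine Finset.sum_eq_zero fun c _ => ?_
    have h3 : ∑ a : G, (MonoidAlgebra.single c (f a * f (c / a)) : MonoidAlgebra (ZMod p) G) =
        MonoidAlgebra.single c (∑ a : G, f a * f (c / a)) := by
      symm
      exact map_sum (MonoidAlgebra.singleAddHom c) _ _
    rw [h3, hf c]
    simp
  have hfrob : x ^ (p ^ N) = x := by
    rw [hx, sum_pow_char_pow]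
    refine Finset.sum_congr rfl fun a _ => ?_
    rw [MonoidAlgebra.single_pow, hG, ZMod.pow_card_pow]
  have hp2 : 2 ≤ p ^ N := by
    calc 2 ≤ p := (Fact.out : p.Prime).two_le
      _ = p ^ 1 := (pow_one p).symm
      _ ≤ p ^ N := Nat.pow_le_pow_right (Fact.out : p.Prime).pos hN
  have hx0 : x = 0 := by
    rw [← hfrob]
    obtain ⟨k, hk⟩ := Nat.exists_eq_add_of_le hp2
    rw [hk, pow_add, sq, hxx, zero_mul]
  have h5 : x.coeff b = 0 := by rw [hx0]; simp
  rw [hx, MonoidAlgebra.coeff_sum] at h5
  simpa [Finsupp.single_apply, Finsupp.finsetSum_apply] using h5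

/-- Halving of `p`-divisibility under multiplicative self-convolution. -/
theorem conv_half {p N : ℕ} [Fact p.Prime] (hN : 1 ≤ N) {K : Type*} [Field K] [Fintype K]
    [DecidableEq K] (hcard : Fintype.card K = p ^ N) (j : ℕ) :
    ∀ f : K → ℤ, (∀ c : K, c ≠ 0 →
      (p : ℤ) ^ (2 * j + 1) ∣ ∑ b ∈ univ.erase (0 : K), f b * f (c / b)) →
      ∀ b : K, b ≠ 0 → (p : ℤ) ^ (j + 1) ∣ f b := by
  have base : ∀ f : K → ℤ, (∀ c : K, c ≠ 0 →
      (p : ℤ) ∣ ∑ b ∈ univ.erase (0 : K), f b * f (c / b)) →
      ∀ b : K, b ≠ 0 → (p : ℤ) ∣ f b := by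
    intro f hf b hb
    have hG : ∀ g : Kˣ, g ^ (p ^ N) = g := by
      intro g
      ext
      rw [← hcard]
      simp [FiniteField.pow_card]
    have h1 := conv_sq_zero (p := p) hN hG (fun u : Kˣ => ((f u : ℤ) : ZMod p)) (by
      intro c
      have h3 := hf c c.ne_zero
      rw [← ZMod.intCast_zmod_eq_zero_iff_dvd] at h3
      rw [← h3]
      push_cast
      refine Finset.sum_bij (fun (a : Kˣ) _ => (a : K)) ?_ ?_ ?_ ?_
      · intro a _
        exact Finset.mem_erase.2 ⟨a.ne_zero, Finset.mem_univ _⟩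
      · intro a _ a' _ h
        exact Units.ext h
      · intro a ha
        exact ⟨Units.mk0 a (Finset.mem_erase.1 ha).1, Finset.mem_univ _, rfl⟩
      · intro a _
        simp) (Units.mk0 b hb)
    rwa [ZMod.intCast_zmod_eq_zero_iff_dvd] at h1
  induction j with
  | zero =>
    intro f hf b hb
    have := base f (by simpa using hf) b hb
    simpa using this
  | succ j ih =>
    intro f hf b hb
    have h0 : ∀ b : K, b ≠ 0 → (p : ℤ) ∣ f b := base f (fun c hc =>
      dvd_trans (dvd_pow_self _ (by omega)) (hf c hc))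
    have hpp : (p : ℤ) ≠ 0 := by
      have := (Fact.out : p.Prime).ne_zero
      exact_mod_cast this
    have h1 : ∀ b : K, b ≠ 0 → f b = p * (f b / p) := fun b hb =>
      (Int.mul_ediv_cancel' (h0 b hb)).symm
    have h3 := ih (fun b => f b / p) (by
      intro c hc
      have h4 : ∑ b ∈ univ.erase (0 : K), f b * f (c / b) =
          (p : ℤ) ^ 2 * ∑ b ∈ univ.erase (0 : K), (f b / p) * (f (c / b) / p) := by
        rw [Finset.mul_sum]
        refine Finset.sum_congr rfl fun b hb => ?_
        have hb0 := (Finset.mem_erase.1 hb).1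
        have h5 := h1 b hb0
        have h6 := h1 (c / b) (div_ne_zero hc hb0)
        calc f b * f (c / b) = (p * (f b / p)) * (p * (f (c / b) / p)) := by rw [← h5, ← h6]
          _ = _ := by ring
      have h7 := hf c hc
      rw [h4, show 2 * (j + 1) + 1 = 2 + (2 * j + 1) by ring, pow_add] at h7
      exact (mul_dvd_mul_iff_left (pow_ne_zero 2 hpp)).1 h7) b hb
    rw [h1 b hb, pow_succ, mul_comm]
    exact mul_dvd_mul_left _ h3

end Run7.h803
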