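import Pool.Agent.Run7.h803.Rel

open Finset

namespace Run7.h803

set_option linter.unusedSectionVars false

section normrel

variable {K L : Type*} [Field K] [Field L] [Fintype K] [Fintype L] [Algebra K L] [DecidableEq K]

/-- Sum of the lifted character over elements of given norm. -/
noncomputable def kap (L : Type*) [Field L] [Fintype L] [Algebra K L] (ψ : AddChar K ℂ) (t : K) :
    ℂ := ∑ w ∈ univ.filter (fun w : L => Algebra.norm K w = t), lift L ψ w

/-- The Kloosterman sum. -/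
noncomputable def Kl (ψ : AddChar K ℂ) (t : K) : ℂ := ∑ u ∈ univ.erase (0 : K), ψ (u + t / u)

theorem sum_psi {ψ : AddChar K ℂ} (hψ : ψ.IsPrimitive) : ∑ x : K, ψ x = 0 := by
  have := sum_psi_mul hψ (1 : K)
  simpa using this

theorem kap_eq (h2 : Module.finrank K L = 2) (hK : ringChar K ≠ 2) {ψ : AddChar K ℂ}
    (hψ : ψ.IsPrimitive) {t : K} (ht : t ≠ 0) : kap L ψ t = - Kl ψ t := by
  have := norm_trace_sum (L := L) h2 hK (fun x => ψ x) ht
  rw [sum_psi hψ, mul_zero] at this
  unfold kap Kl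
  simp only [lift_apply]
  linear_combination this

theorem card_norm (h2 : Module.finrank K L = 2) (hK : ringChar K ≠ 2) {t : K} (ht : t ≠ 0) :
    ((univ.filter (fun w : L => Algebra.norm K w = t)).card : ℂ) = Fintype.card K + 1 := by
  have := norm_trace_sum (L := L) h2 hK (fun _ => 1) ht
  simp only [Finset.sum_const, nsmul_eq_mul, mul_one, Finset.card_univ,
    Finset.card_erase_of_mem (Finset.mem_univ (0 : K))] at this
  rw [Nat.cast_sub Fintype.card_pos] at this
  push_cast at this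
  linear_combination this

theorem kap_pow {ψ : AddChar K ℂ} {s : ℕ}
    (hb : Function.Bijective (fun x : K => x ^ s)) (hb' : Function.Bijective (fun x : L => x ^ s))
    (t : K) : ∑ x ∈ univ.filter (fun x : L => Algebra.norm K x = t), lift L ψ (x ^ s) =
      kap L ψ (t ^ s) := by
  unfold kap
  refine Finset.sum_bij (fun x _ => x ^ s) ?_ ?_ ?_ ?_
  · intro x hx
    rw [Finset.mem_filter] at hx ⊢
    exact ⟨Finset.mem_univ _, by rw [map_pow, hx.2]⟩
  · intro x _ y _ h
    exact hb'.1 h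
  · intro y hy
    obtain ⟨x, rfl⟩ := hb'.2 y
    rw [Finset.mem_filter, map_pow] at hy
    exact ⟨x, Finset.mem_filter.2 ⟨Finset.mem_univ _, hb.1 hy.2⟩, rfl⟩
  · intro x _
    rfl

theorem norm_neg (h2 : Module.finrank K L = 2) (x : L) :
    Algebra.norm K (-x) = Algebra.norm K x := by
  have h : (-x) = algebraMap K L (-1) * x := by simp
  rw [h, map_mul, Algebra.norm_algebraMap, h2]
  simp

theorem kap_scale (h2 : Module.finrank K L = 2) {ψ : AddChar K ℂ} (c : K) (x : L) (hx : x ≠ 0) :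
    ∑ a ∈ univ.filter (fun a : L => Algebra.norm K a = c), lift L ψ (-(a * x)) =
      kap L ψ (c * Algebra.norm K x) := by
  unfold kap
  have hN : Algebra.norm K x ≠ 0 := by
    rw [Ne, Algebra.norm_eq_zero_iff]; exact hx
  refine Finset.sum_bij (fun a _ => -(a * x)) ?_ ?_ ?_ ?_
  · intro a ha
    rw [Finset.mem_filter] at ha ⊢
    exact ⟨Finset.mem_univ _, by rw [norm_neg h2, map_mul, ha.2]⟩
  · intro a _ b _ h
    exact mul_right_cancel₀ hx (neg_injective h)
  · intro w hw
    rw [Finset.mem_filter] at hw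
    refine ⟨-(w / x), Finset.mem_filter.2 ⟨Finset.mem_univ _, ?_⟩, ?_⟩
    · rw [norm_neg h2]
      have h3 : Algebra.norm K (w / x) * Algebra.norm K x = c * Algebra.norm K x := by
        rw [← map_mul, div_mul_cancel₀ _ hx, hw.2]
      exact mul_right_cancel₀ hN h3
    · field_simp
  · intro a _
    rfl

theorem norm_side (h2 : Module.finrank K L = 2) (hK : ringChar K ≠ 2) {ψ : AddChar K ℂ} {s : ℕ}
    (hb : Function.Bijective (fun x : K => x ^ s)) (hb' : Function.Bijective (fun x : L => x ^ s))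
    {c : K} (hc : c ≠ 0) :
    ∑ a ∈ univ.filter (fun a : L => Algebra.norm K a = c), W (lift L ψ) s a =
      (Fintype.card K + 1) + ∑ t ∈ univ.erase (0 : K), kap L ψ (c * t) * kap L ψ (t ^ s) := by
  classical
  have e1 : ∑ a ∈ univ.filter (fun a : L => Algebra.norm K a = c), W (lift L ψ) s a =
      ∑ x : L, lift L ψ (x ^ s) *
        ∑ a ∈ univ.filter (fun a : L => Algebra.norm K a = c), lift L ψ (-(a * x)) := by
    unfold W
    rw [Finset.sum_comm]
    refine Finset.sum_congr rfl fun x _ => ?_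
    rw [Finset.mul_sum]
    refine Finset.sum_congr rfl fun a _ => ?_
    rw [← AddChar.map_add_eq_mul, sub_eq_add_neg]
  rw [e1, ← Finset.add_sum_erase _ _ (Finset.mem_univ (0 : L))]
  congr 1
  · simp only [zero_pow (s_ne_zero hb), mul_zero, neg_zero, AddChar.map_zero_eq_one, one_mul,
      Finset.sum_const, nsmul_eq_mul, mul_one]
    exact card_norm h2 hK hc
  · have e2 : ∀ x ∈ univ.erase (0 : L), lift L ψ (x ^ s) *
        ∑ a ∈ univ.filter (fun a : L => Algebra.norm K a = c), lift L ψ (-(a * x)) =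
        lift L ψ (x ^ s) * kap L ψ (c * Algebra.norm K x) := by
      intro x hx
      rw [kap_scale h2 c x (Finset.mem_erase.1 hx).1]
    rw [Finset.sum_congr rfl e2]
    have e3 : ∑ x ∈ univ.erase (0 : L), lift L ψ (x ^ s) * kap L ψ (c * Algebra.norm K x) =
        ∑ t ∈ univ.erase (0 : K), ∑ x ∈ (univ.erase (0 : L)).filter
          (fun x => Algebra.norm K x = t), lift L ψ (x ^ s) * kap L ψ (c * Algebra.norm K x) := by
      symm
      apply Finset.sum_fiberwise_of_maps_to
      intro x hx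
      rw [Finset.mem_erase] at hx ⊢
      refine ⟨?_, Finset.mem_univ _⟩
      rw [Ne, Algebra.norm_eq_zero_iff]
      exact hx.1
    rw [e3]
    refine Finset.sum_congr rfl fun t ht => ?_
    have ht0 := (Finset.mem_erase.1 ht).1
    have e4 : (univ.erase (0 : L)).filter (fun x => Algebra.norm K x = t) =
        univ.filter (fun x : L => Algebra.norm K x = t) := by
      ext x
      simp only [Finset.mem_filter, Finset.mem_erase, Finset.mem_univ, and_true, true_and]
      constructor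
      · intro h; exact h.2
      · intro h
        refine ⟨?_, h⟩
        rintro rfl
        rw [Algebra.norm_zero] at h
        exact ht0 h.symm
    rw [e4, ← kap_pow hb hb' t, Finset.mul_sum]
    refine Finset.sum_congr rfl fun x hx => ?_
    rw [(Finset.mem_filter.1 hx).2, mul_comm]

theorem Kl_pow {ψ : AddChar K ℂ} {s : ℕ} (hb : Function.Bijective (fun x : K => x ^ s)) (t : K) :
    ∑ x ∈ univ.erase (0 : K), ψ (x ^ s + (t / x) ^ s) = Kl ψ (t ^ s) := by
  unfold Kl
  have hs0 := s_ne_zero hb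
  refine Finset.sum_bij (fun x _ => x ^ s) ?_ ?_ ?_ ?_
  · intro x hx
    rw [Finset.mem_erase] at hx ⊢
    exact ⟨pow_ne_zero _ hx.1, Finset.mem_univ _⟩
  · intro x _ y _ h
    exact hb.1 h
  · intro y hy
    obtain ⟨x, rfl⟩ := hb.2 y
    rw [Finset.mem_erase] at hy
    refine ⟨x, Finset.mem_erase.2 ⟨?_, Finset.mem_univ _⟩, rfl⟩
    rintro rfl
    exact hy.1 (zero_pow hs0)
  · intro x _
    rw [div_pow]

theorem inner_zero {ψ : AddChar K ℂ} (hψ : ψ.IsPrimitive) {z : K} (hz : z ≠ 0) :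
    ∑ b ∈ univ.erase (0 : K), ψ (-(b * z)) = -1 := by
  have h1 := sum_psi_mul hψ (-z)
  rw [if_neg (neg_ne_zero.2 hz), ← Finset.add_sum_erase _ _ (Finset.mem_univ (0 : K))] at h1
  simp only [zero_mul, AddChar.map_zero_eq_one] at h1
  have h3 : ∀ b : K, ψ (-(b * z)) = ψ (b * -z) := by intro b; rw [mul_neg]
  simp only [h3]
  linear_combination h1

theorem sum_inv {f : K → ℂ} {c : K} (hc : c ≠ 0) :
    ∑ b ∈ univ.erase (0 : K), f (c / b) = ∑ b ∈ univ.erase (0 : K), f b := by
  refine Finset.sum_bij' (fun b _ => c / b) (fun b _ => c / b) ?_ ?_ ?_ ?_ ?_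
  · intro b hb
    rw [Finset.mem_erase] at hb ⊢
    exact ⟨div_ne_zero hc hb.1, Finset.mem_univ _⟩
  · intro b hb
    rw [Finset.mem_erase] at hb ⊢
    exact ⟨div_ne_zero hc hb.1, Finset.mem_univ _⟩
  · intro b hb
    have := (Finset.mem_erase.1 hb).1
    field_simp
  · intro b hb
    have := (Finset.mem_erase.1 hb).1
    field_simp
  · intro b _
    rfl

/-- The inner sum over `b`. -/
theorem inner_R {ψ : AddChar K ℂ} {c x y : K} (hx : x ≠ 0) :
    ∑ b ∈ univ.erase (0 : K), ψ (-(b * x) - (c / b) * y) = Kl ψ (c * (x * y)) := by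
  unfold Kl
  refine Finset.sum_bij' (fun b _ => -(b * x)) (fun b _ => -(b / x)) ?_ ?_ ?_ ?_ ?_
  · intro b hb
    rw [Finset.mem_erase] at hb ⊢
    exact ⟨neg_ne_zero.2 (mul_ne_zero hb.1 hx), Finset.mem_univ _⟩
  · intro b hb
    rw [Finset.mem_erase] at hb ⊢
    exact ⟨neg_ne_zero.2 (div_ne_zero hb.1 hx), Finset.mem_univ _⟩
  · intro b hb
    field_simp
  · intro b hb
    field_simp
  · intro b hb
    have := (Finset.mem_erase.1 hb).1
    congr 1
    field_simp
    ring

theorem conv_side {ψ : AddChar K ℂ} {s : ℕ} (hψ : ψ.IsPrimitive)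
    (hb : Function.Bijective (fun x : K => x ^ s)) {c : K} (hc : c ≠ 0) :
    ∑ b ∈ univ.erase (0 : K), W ψ s b * W ψ s (c / b) =
      (Fintype.card K + 1) + ∑ t ∈ univ.erase (0 : K), Kl ψ (c * t) * Kl ψ (t ^ s) := by
  have hs0 := s_ne_zero hb
  set R : K → K → ℂ := fun x y => ∑ b ∈ univ.erase (0 : K), ψ (-(b * x) - (c / b) * y) with hR
  have e1 : ∑ b ∈ univ.erase (0 : K), W ψ s b * W ψ s (c / b) =
      ∑ x : K, ∑ y : K, ψ (x ^ s + y ^ s) * R x y := by
    have h1 : ∀ b : K, W ψ s b * W ψ s (c / b) =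
        ∑ x : K, ∑ y : K, ψ (x ^ s + y ^ s) * ψ (-(b * x) - (c / b) * y) := by
      intro b
      unfold W
      rw [Finset.sum_mul_sum]
      refine Finset.sum_congr rfl fun x _ => Finset.sum_congr rfl fun y _ => ?_
      rw [← AddChar.map_add_eq_mul, ← AddChar.map_add_eq_mul]
      congr 1
      ring
    simp only [h1]
    rw [Finset.sum_comm]
    refine Finset.sum_congr rfl fun x _ => ?_
    rw [Finset.sum_comm]
    refine Finset.sum_congr rfl fun y _ => ?_
    rw [hR, Finset.mul_sum]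
  have R00 : R 0 0 = (Fintype.card K : ℂ) - 1 := by
    simp only [hR, mul_zero, neg_zero, sub_zero, AddChar.map_zero_eq_one, Finset.sum_const,
      nsmul_eq_mul, mul_one, Finset.card_erase_of_mem (Finset.mem_univ (0 : K)), Finset.card_univ]
    rw [Nat.cast_sub Fintype.card_pos]
    simp
  have Rx0 : ∀ x, x ≠ 0 → R x 0 = -1 := by
    intro x hx
    simp only [hR, mul_zero, sub_zero]
    exact inner_zero hψ hx
  have R0y : ∀ y, y ≠ 0 → R 0 y = -1 := by
    intro y hy
    simp only [hR, mul_zero, neg_zero, zero_sub]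
    rw [sum_inv (f := fun b => ψ (-(b * y))) hc]
    exact inner_zero hψ hy
  have Rxy : ∀ x y, x ≠ 0 → y ≠ 0 → R x y = Kl ψ (c * (x * y)) := by
    intro x y hx hy
    exact inner_R hx
  have hsum : ∑ y ∈ univ.erase (0 : K), ψ (y ^ s) = -1 := by
    have h1 : ∑ y : K, ψ (y ^ s) = 0 := by
      rw [sum_pow_eq hb (fun x => ψ x)]; exact sum_psi hψ
    rw [← Finset.add_sum_erase _ _ (Finset.mem_univ (0 : K))] at h1
    simp only [zero_pow hs0, AddChar.map_zero_eq_one] at h1
    linear_combination h1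
  rw [e1, ← Finset.add_sum_erase _ _ (Finset.mem_univ (0 : K)),
    ← Finset.add_sum_erase _ _ (Finset.mem_univ (0 : K))]
  have e2 : ∑ y ∈ univ.erase (0 : K), ψ ((0 : K) ^ s + y ^ s) * R 0 y = 1 := by
    have : ∀ y ∈ univ.erase (0 : K), ψ ((0 : K) ^ s + y ^ s) * R 0 y = ψ (y ^ s) * (-1) := by
      intro y hy
      rw [R0y y (Finset.mem_erase.1 hy).1, zero_pow hs0, zero_add]
    rw [Finset.sum_congr rfl this, ← Finset.sum_mul, hsum]
    ring
  have e3 : ∑ x ∈ univ.erase (0 : K), ∑ y : K, ψ (x ^ s + y ^ s) * R x y =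
      1 + ∑ x ∈ univ.erase (0 : K), ∑ y ∈ univ.erase (0 : K),
        ψ (x ^ s + y ^ s) * Kl ψ (c * (x * y)) := by
    have h1 : ∀ x ∈ univ.erase (0 : K), ∑ y : K, ψ (x ^ s + y ^ s) * R x y =
        ψ (x ^ s) * (-1) + ∑ y ∈ univ.erase (0 : K), ψ (x ^ s + y ^ s) * Kl ψ (c * (x * y)) := by
      intro x hx
      have hx0 := (Finset.mem_erase.1 hx).1
      rw [← Finset.add_sum_erase _ _ (Finset.mem_univ (0 : K)), Rx0 x hx0, zero_pow hs0, add_zero]
      congr 1
      refine Finset.sum_congr rfl fun y hy => ?_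
      rw [Rxy x y hx0 (Finset.mem_erase.1 hy).1]
    rw [Finset.sum_congr rfl h1, Finset.sum_add_distrib, ← Finset.sum_mul, hsum]
    ring
  have e4 : ∑ x ∈ univ.erase (0 : K), ∑ y ∈ univ.erase (0 : K),
        ψ (x ^ s + y ^ s) * Kl ψ (c * (x * y)) =
      ∑ t ∈ univ.erase (0 : K), Kl ψ (c * t) * Kl ψ (t ^ s) := by
    have h1 : ∀ x ∈ univ.erase (0 : K), ∑ y ∈ univ.erase (0 : K),
        ψ (x ^ s + y ^ s) * Kl ψ (c * (x * y)) =
        ∑ t ∈ univ.erase (0 : K), ψ (x ^ s + (t / x) ^ s) * Kl ψ (c * t) := by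
      intro x hx
      have hx0 := (Finset.mem_erase.1 hx).1
      refine Finset.sum_bij' (fun y _ => x * y) (fun t _ => t / x) ?_ ?_ ?_ ?_ ?_
      · intro y hy
        rw [Finset.mem_erase] at hy ⊢
        exact ⟨mul_ne_zero hx0 hy.1, Finset.mem_univ _⟩
      · intro t ht
        rw [Finset.mem_erase] at ht ⊢
        exact ⟨div_ne_zero ht.1 hx0, Finset.mem_univ _⟩
      · intro y _
        field_simp
      · intro t _
        field_simp
      · intro y _
        rw [mul_div_cancel_left₀ y hx0]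
    rw [Finset.sum_congr rfl h1, Finset.sum_comm]
    refine Finset.sum_congr rfl fun t _ => ?_
    rw [← Finset.sum_mul, Kl_pow hb, mul_comm]
  rw [e2, e3, e4, R00]
  simp only [zero_pow hs0, add_zero, AddChar.map_zero_eq_one]
  ring

/-- The norm relation between the spectra of `L` and of `K`. -/
theorem norm_relation (h2 : Module.finrank K L = 2) (hK : ringChar K ≠ 2) {ψ : AddChar K ℂ}
    {s : ℕ} (hψ : ψ.IsPrimitive)
    (hb : Function.Bijective (fun x : K => x ^ s)) (hb' : Function.Bijective (fun x : L => x ^ s))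
    {c : K} (hc : c ≠ 0) :
    ∑ a ∈ univ.filter (fun a : L => Algebra.norm K a = c), W (lift L ψ) s a =
      ∑ b ∈ univ.erase (0 : K), W ψ s b * W ψ s (c / b) := by
  rw [norm_side h2 hK hb hb' hc, conv_side hψ hb hc]
  congr 1
  refine Finset.sum_congr rfl fun t ht => ?_
  have ht0 := (Finset.mem_erase.1 ht).1
  rw [kap_eq h2 hK hψ (mul_ne_zero hc ht0), kap_eq h2 hK hψ (pow_ne_zero _ ht0)]
  ring

end normrel

end Run7.h803
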