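import Pool.Agent.Run7.h803.Sing

open Finset

namespace Run7.h803

set_option linter.unusedSectionVars false

/-- Consequences of the divisibilities for the two cofactors. -/
theorem cofactor {p h g : ℕ} (hp : p.Prime) (hp5 : 5 ≤ p) (hh : 1 ≤ h) {α β NA NB m1 : ℤ}
    (hα : 0 < α) (hβ : 0 < β) (pα : ¬ (p : ℤ) ∣ α) (pβ : ¬ (p : ℤ) ∣ β)
    (hsum : α + β = (p : ℤ) ^ g)
    (hNA : NA * α * (p : ℤ) ^ g = (p : ℤ) ^ h * ((p : ℤ) ^ h + β))
    (hNB : NB * β * (p : ℤ) ^ g = (p : ℤ) ^ h * ((p : ℤ) ^ h - α))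
    (hm : m1 = (p : ℤ) ^ h * (α - β) + α * β) (hm2 : 2 ≤ m1) :
    ∃ f : ℕ, 1 ≤ g ∧ g ≤ f ∧ g + f = h ∧ β < α ∧ α ∣ (p : ℤ) ^ f + 1 ∧ β ∣ (p : ℤ) ^ f - 1 := by
  have hpZ : Prime (p : ℤ) := Nat.prime_iff_prime_int.1 hp
  have hp5' : (5 : ℤ) ≤ p := by exact_mod_cast hp5
  have hp0 : (0 : ℤ) < p := by linarith
  have hg1 : 1 ≤ g := by
    by_contra hg
    have : g = 0 := by omega
    rw [this, pow_zero] at hsum
    linarith
  -- g ≤ h
  have hgh : g ≤ h := by
    have h1 : (p : ℤ) ^ g ∣ (p : ℤ) ^ h * ((p : ℤ) ^ h + β) := ⟨NA * α, by linarith⟩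
    have h2 : ¬ (p : ℤ) ∣ ((p : ℤ) ^ h + β) := by
      intro hd
      apply pβ
      have : (p : ℤ) ∣ (p : ℤ) ^ h := dvd_pow_self _ (by omega)
      exact (dvd_add_right this).1 hd
    have h3 : IsCoprime ((p : ℤ) ^ g) ((p : ℤ) ^ h + β) :=
      IsCoprime.pow_left ((Prime.coprime_iff_not_dvd hpZ).2 h2)
    have h4 : (p : ℤ) ^ g ∣ (p : ℤ) ^ h := h3.dvd_of_dvd_mul_right h1
    by_contra hlt
    push Not at hlt
    have h5 := Int.le_of_dvd (pow_pos hp0 _) h4
    have h6 : (p : ℤ) ^ h < (p : ℤ) ^ g := pow_lt_pow_right₀ (by linarith) hlt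
    linarith
  obtain ⟨f, rfl⟩ := Nat.exists_eq_add_of_le hgh
  have cα : IsCoprime α (p : ℤ) := ((Prime.coprime_iff_not_dvd hpZ).2 pα).symm
  have cβ : IsCoprime β (p : ℤ) := ((Prime.coprime_iff_not_dvd hpZ).2 pβ).symm
  have dα : α ∣ (p : ℤ) ^ f + 1 := by
    have h1 : α ∣ (p : ℤ) ^ (g + f) * ((p : ℤ) ^ (g + f) + β) := ⟨NA * (p : ℤ) ^ g, by
      linarith⟩
    have h2 : α ∣ (p : ℤ) ^ (g + f) + β := (cα.pow_right).dvd_of_dvd_mul_left h1
    have h3 : α ∣ (p : ℤ) ^ g * ((p : ℤ) ^ f + 1) := by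
      have : (p : ℤ) ^ g * ((p : ℤ) ^ f + 1) = ((p : ℤ) ^ (g + f) + β) + α := by
        rw [pow_add]; linear_combination -hsum
      rw [this]
      exact dvd_add h2 (dvd_refl _)
    exact (cα.pow_right).dvd_of_dvd_mul_left h3
  have dβ : β ∣ (p : ℤ) ^ f - 1 := by
    have h1 : β ∣ (p : ℤ) ^ (g + f) * ((p : ℤ) ^ (g + f) - α) := ⟨NB * (p : ℤ) ^ g, by
      linarith⟩
    have h2 : β ∣ (p : ℤ) ^ (g + f) - α := (cβ.pow_right).dvd_of_dvd_mul_left h1
    have h3 : β ∣ (p : ℤ) ^ g * ((p : ℤ) ^ f - 1) := by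
      have : (p : ℤ) ^ g * ((p : ℤ) ^ f - 1) = ((p : ℤ) ^ (g + f) - α) - β := by
        rw [pow_add]; linear_combination hsum
      rw [this]
      exact dvd_sub h2 (dvd_refl _)
    exact (cβ.pow_right).dvd_of_dvd_mul_left h3
  have hr5 : (p : ℤ) ≤ (p : ℤ) ^ (g + f) := by
    calc (p : ℤ) = (p : ℤ) ^ 1 := (pow_one _).symm
      _ ≤ _ := pow_le_pow_right₀ (by linarith) (by omega)
  -- f ≥ 1
  have hf1 : 1 ≤ f := by
    by_contra hf
    have hf0 : f = 0 := by omega
    subst hf0
    rw [pow_zero] at dα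
    have h1 : α ≤ 2 := by
      have := Int.le_of_dvd (by norm_num) dα
      linarith
    rw [add_zero] at hm hr5
    rw [← hsum] at hm hr5
    have hα' : α = 1 ∨ α = 2 := by omega
    rcases hα' with rfl | rfl
    · nlinarith
    · have hb3 : 3 ≤ β := by linarith
      rcases hb3.eq_or_lt with hb | hb
      · rw [← hb] at hm; norm_num at hm; linarith
      · nlinarith
  have hgf : g ≤ f := by
    have h1 : α ≤ (p : ℤ) ^ f + 1 := Int.le_of_dvd (by positivity) dα
    have hpf : (1 : ℤ) < (p : ℤ) ^ f := one_lt_pow₀ (by linarith) (by omega)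
    have h2 : β ≤ (p : ℤ) ^ f - 1 := Int.le_of_dvd (by linarith) dβ
    by_contra hlt
    push Not at hlt
    have h3 : (p : ℤ) ^ (f + 1) ≤ (p : ℤ) ^ g := pow_le_pow_right₀ (by linarith) hlt
    have h4 : (p : ℤ) ^ (f + 1) = (p : ℤ) ^ f * p := pow_succ _ _
    nlinarith
  refine ⟨f, hg1, hgf, rfl, ?_, dα, dβ⟩
  by_contra hle
  push Not at hle
  rcases hle.eq_or_lt with heq | hlt
  · have h1 : (p : ℤ) ∣ 2 * α := by
      have : 2 * α = (p : ℤ) ^ g := by rw [← hsum, heq]; ring
      rw [this]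
      exact dvd_pow_self _ (by omega)
    rcases hpZ.dvd_or_dvd h1 with h2 | h2
    · have := Int.le_of_dvd (by norm_num) h2
      linarith
    · exact pα h2
  · have h1 : 4 * (α * β) ≤ (p : ℤ) ^ (g + f) := by
      have h2 : (p : ℤ) ^ g * (p : ℤ) ^ g ≤ (p : ℤ) ^ (g + f) := by
        rw [← pow_add]
        exact pow_le_pow_right₀ (by linarith) (by omega)
      nlinarith [sq_nonneg (α - β)]
    have h3 : (p : ℤ) ^ (g + f) * (α - β) ≤ (p : ℤ) ^ (g + f) * (-1) :=
      mul_le_mul_of_nonneg_left (by linarith) (by positivity)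
    nlinarith [mul_pos hα hβ]

namespace IsWeil

variable {F : Type*} [Field F] [Fintype F] [DecidableEq F] {w : F → ℤ} {c : F → F}

/-- The support. -/
def T (w : F → ℤ) : Finset F := univ.filter fun a => w a ≠ 0

theorem structure_thm (h : IsWeil w c) {p k : ℕ} (hp : p.Prime) (hp5 : 5 ≤ p) (hk : 1 ≤ k)
    (hq : Fintype.card F = p ^ (2 * k)) {A B : ℤ} (hA : 0 < A) (hB : B < 0)
    (hall : ∀ a, w a = 0 ∨ w a = A ∨ w a = B) (eA : ∃ a, w a = A) (eB : ∃ a, w a = B)
    (hm2 : 2 ≤ m c 1) (hV : ¬ ∀ a, (p : ℤ) ^ (k + 1) ∣ w a) :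
    ∃ (g f : ℕ) (α β : ℤ), A = (p : ℤ) ^ k * α ∧ B = -((p : ℤ) ^ k * β) ∧ 0 < α ∧ 0 < β ∧
      ¬ (p : ℤ) ∣ α ∧ ¬ (p : ℤ) ∣ β ∧
      α + β = (p : ℤ) ^ g ∧ 1 ≤ g ∧ g ≤ f ∧ g + f = k ∧ β < α ∧ α ∣ (p : ℤ) ^ f + 1 ∧
      β ∣ (p : ℤ) ^ f - 1 ∧
      α * β * (T w).card = (p : ℤ) ^ k * ((p : ℤ) ^ k + β - α) := by
  have hpZ : Prime (p : ℤ) := Nat.prime_iff_prime_int.1 hp
  have hp5' : (5 : ℤ) ≤ p := by exact_mod_cast hp5
  have hp0 : (0 : ℤ) < p := by linarith
  have hqZ : (Fintype.card F : ℤ) = (p : ℤ) ^ (2 * k) := by rw [hq]; push_cast; rfl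
  set q : ℤ := (Fintype.card F : ℤ) with hqdef
  have hqpos : 0 < q := by rw [hqZ]; positivity
  obtain ⟨aA, haA⟩ := eA
  obtain ⟨aB, haB⟩ := eB
  -- pointwise quadratic relation
  have hquad : ∀ a, w a ^ 2 = (A + B) * w a - A * B * (if w a ≠ 0 then 1 else 0) := by
    intro a
    rcases hall a with h' | h' | h'
    · simp [h']
    · rw [h', if_pos hA.ne']; ring
    · rw [h', if_pos hB.ne]; ring
  have hT : ∀ f : F → ℤ, ∑ a, (if w a ≠ 0 then 1 else 0) * f a = ∑ a ∈ T w, f a := by
    intro f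
    unfold T
    rw [Finset.sum_filter]
    refine Finset.sum_congr rfl fun a _ => ?_
    split_ifs <;> simp
  -- m1 relation
  have hm1 : q * m c 1 = (A + B) * q - A * B := by
    have h1 := h.sum_cube
    have h2 : ∀ a, w a ^ 3 = (A + B) * w a ^ 2 - A * B * w a := by
      intro a
      rcases hall a with h' | h' | h' <;> rw [h'] <;> ring
    simp only [h2] at h1
    rw [Finset.sum_sub_distrib, ← Finset.mul_sum, ← Finset.mul_sum, h.sum, h.sum_sq] at h1
    have h3 : q * (q * m c 1) = q * ((A + B) * q - A * B) := by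
      linear_combination -h1
    exact mul_left_cancel₀ hqpos.ne' h3
  set D : ℤ := m c 1 - A - B with hD
  have hAB : A * B = -(q * D) := by rw [hD]; linear_combination hm1
  have hABneg : A * B < 0 := mul_neg_of_pos_of_neg hA hB
  have hDpos : 0 < D := by
    by_contra hd
    push Not at hd
    nlinarith
  have hTcard : D * (T w).card = q - A - B := by
    have h1 := h.sum_sq
    simp only [hquad] at h1
    rw [Finset.sum_sub_distrib, ← Finset.mul_sum, ← Finset.mul_sum, h.sum] at h1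
    have h2 := hT (fun _ => 1)
    simp only [mul_one, Finset.sum_const, nsmul_eq_mul] at h2
    rw [h2] at h1
    have h3 : q * (D * (T w).card) = q * (q - A - B) := by
      linear_combination h1 + (T w).card * hAB
    exact mul_left_cancel₀ hqpos.ne' h3
  have hT2 : 2 ≤ (T w).card := by
    have hne : aA ≠ aB := by
      rintro rfl
      linarith
    rw [← Finset.card_pair hne]
    apply Finset.card_le_card
    intro x hx
    simp only [Finset.mem_insert, Finset.mem_singleton] at hx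
    unfold T
    rw [Finset.mem_filter]
    refine ⟨Finset.mem_univ _, ?_⟩
    rcases hx with rfl | rfl
    · rw [haA]; exact hA.ne'
    · rw [haB]; exact hB.ne
  -- second moment of m
  have hmm : ∑ z, m c z ^ 2 = (A + B) * m c 1 + q * D := by
    have h1 := h.fourth
    have h2 : ∀ a, w a ^ 4 = (A + B) * w a ^ 3 - A * B * w a ^ 2 := by
      intro a
      rcases hall a with h' | h' | h' <;> rw [h'] <;> ring
    simp only [h2] at h1
    rw [Finset.sum_sub_distrib, ← Finset.mul_sum, ← Finset.mul_sum, h.sum_cube, h.sum_sq] at h1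
    have h3 : q ^ 2 * (∑ z, m c z ^ 2) = q ^ 2 * ((A + B) * m c 1 + q * D) := by
      linear_combination -h1 - q ^ 2 * hAB
    exact mul_left_cancel₀ (by positivity) h3
  -- the relation for z ≠ 1
  have hrel : ∀ z, z ≠ 1 → q * m c z = D * ∑ a ∈ T w, w (z * a) := by
    intro z hz
    have h1 := h.third z
    have h2 : ∀ a, w a ^ 2 * w (z * a) = (A + B) * (w a * w (z * a)) -
        A * B * ((if w a ≠ 0 then 1 else 0) * w (z * a)) := by
      intro a
      rw [hquad a]; ring
    simp only [h2] at h1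
    rw [Finset.sum_sub_distrib, ← Finset.mul_sum, ← Finset.mul_sum, h.corr, if_neg hz, hT] at h1
    have h3 : q * (q * m c z) = q * (D * ∑ a ∈ T w, w (z * a)) := by
      linear_combination -h1 + (-(∑ a ∈ T w, w (z * a))) * hAB
    exact mul_left_cancel₀ hqpos.ne' h3
  -- factorisations
  obtain ⟨a, α, hAf, pα⟩ := exists_factor hp hA.ne'
  obtain ⟨b, β, hBf, pβ⟩ := exists_factor hp (neg_ne_zero.2 hB.ne)
  have hBf' : B = -((p : ℤ) ^ b * β) := by linarith
  have hABpos : 0 < A - B := by linarith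
  obtain ⟨g, G, hGf, pG⟩ := exists_factor hp hABpos.ne'
  have hα : 0 < α := by
    have : 0 < (p : ℤ) ^ a * α := by rw [← hAf]; exact hA
    exact (pos_iff_pos_of_mul_pos this).1 (by positivity)
  have hβ : 0 < β := by
    have : 0 < (p : ℤ) ^ b * β := by rw [← hBf]; linarith
    exact (pos_iff_pos_of_mul_pos this).1 (by positivity)
  have hG : 0 < G := by
    have : 0 < (p : ℤ) ^ g * G := by rw [← hGf]; exact hABpos
    exact (pos_iff_pos_of_mul_pos this).1 (by positivity)
  have cop : ∀ x : ℤ, ¬ (p : ℤ) ∣ x → IsCoprime (p : ℤ) x := fun x hx =>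
    (Prime.coprime_iff_not_dvd hpZ).2 hx
  have hαβ : ¬ (p : ℤ) ∣ α * β := by
    intro hd
    rcases hpZ.dvd_or_dvd hd with h' | h'
    · exact pα h'
    · exact pβ h'
  have hDf : (p : ℤ) ^ (a + b) * (α * β) = (p : ℤ) ^ (2 * k) * D := by
    have : (p : ℤ) ^ (a + b) * (α * β) = -(A * B) := by rw [hAf, hBf']; ring
    rw [this, hAB, hqZ]; ring
  have hab : 2 * k ≤ a + b := by
    have h1 : (p : ℤ) ^ (2 * k) ∣ (p : ℤ) ^ (a + b) * (α * β) := ⟨D, hDf⟩
    have h2 : (p : ℤ) ^ (2 * k) ∣ (p : ℤ) ^ (a + b) :=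
      ((cop _ hαβ).pow_left).dvd_of_dvd_mul_right h1
    by_contra hlt
    push Not at hlt
    have h3 := Int.le_of_dvd (by positivity) h2
    have h4 : (p : ℤ) ^ (a + b) < (p : ℤ) ^ (2 * k) := pow_lt_pow_right₀ (by linarith) hlt
    linarith
  obtain ⟨d, hd⟩ := Nat.exists_eq_add_of_le hab
  have hDd : D = (p : ℤ) ^ d * (α * β) := by
    rw [hd, pow_add, mul_assoc] at hDf
    exact (mul_left_cancel₀ (by positivity) hDf).symm
  -- coprimality of G and A
  have hGA : IsCoprime G A := by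
    rw [Int.isCoprime_iff_gcd_eq_one]
    set t : ℤ := (Int.gcd G A : ℤ) with ht
    have t1 : t ∣ G := Int.gcd_dvd_left ..
    have t2 : t ∣ A := Int.gcd_dvd_right ..
    have t3 : t ∣ B := by
      have : t ∣ A - B := by rw [hGf]; exact Dvd.dvd.mul_left t1 _
      have := dvd_sub t2 this
      simpa using this
    have t4 : ∀ x, t ∣ w x := by
      intro x
      rcases hall x with h' | h' | h' <;> rw [h']
      · exact dvd_zero _
      · exact t2
      · exact t3
    have t5 : t ∣ q := by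
      rw [hqdef, ← h.sum]
      exact Finset.dvd_sum fun x _ => t4 x
    have t6 : IsCoprime ((p : ℤ) ^ (2 * k)) G := (cop _ pG).pow_left
    have t7 : t ∣ 1 := by
      have := t6.isUnit_of_dvd' (by rw [← hqZ]; exact t5) t1
      exact this.dvd
    have t8 : (Int.gcd G A : ℤ) ∣ 1 := t7
    have t9 : Int.gcd G A ∣ 1 := by exact_mod_cast t8
    exact Nat.dvd_one.1 t9
  -- divisibility of m
  have hdivm : ∀ z, z ≠ 1 → α * β * G ∣ m c z := by
    intro z hz
    have h1 : G ∣ ∑ a ∈ T w, w (z * a) := by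
      have h2 : ∀ x, w x = A * (if w x ≠ 0 then 1 else 0) - (A - B) * (if w x = B then 1 else 0) := by
        intro x
        rcases hall x with h' | h' | h'
        · rw [h']; simp [hB.ne.symm]
        · rw [h', if_pos hA.ne', if_neg (by linarith)]; ring
        · rw [h', if_pos hB.ne, if_pos rfl]; ring
      have h3 : 0 = A * (∑ a ∈ T w, w (z * a)) - (A - B) * ∑ x, (if w x = B then 1 else 0) * w (z * x) := by
        have h4 := h.corr z
        rw [if_neg hz] at h4
        refine h4.symm.trans ?_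
        rw [← hT, Finset.mul_sum, Finset.mul_sum, ← Finset.sum_sub_distrib]
        refine Finset.sum_congr rfl fun x _ => ?_
        have := h2 x
        linear_combination (w (z * x)) * this
      have h5 : G ∣ A * (∑ a ∈ T w, w (z * a)) := by
        have : A * (∑ a ∈ T w, w (z * a)) = G * ((p : ℤ) ^ g * ∑ x, (if w x = B then 1 else 0) * w (z * x)) := by
          rw [hGf] at h3
          linear_combination -h3
        exact ⟨_, this⟩
      exact hGA.dvd_of_dvd_mul_left h5
    have h6 : α * β * G ∣ (p : ℤ) ^ (2 * k) * m c z := by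
      rw [← hqZ, hrel z hz, hDd]
      obtain ⟨y, hy⟩ := h1
      exact ⟨(p : ℤ) ^ d * y, by rw [hy]; ring⟩
    have h7 : ¬ (p : ℤ) ∣ α * β * G := by
      intro hd
      rcases hpZ.dvd_or_dvd hd with h' | h'
      · exact hαβ h'
      · exact pG h'
    exact ((cop _ h7).pow_left.symm).dvd_of_dvd_mul_left h6
  -- existence of a small nonzero m
  have hex : ∃ z, z ≠ 1 ∧ 0 < m c z ∧ m c z ≤ D := by
    by_contra hcon
    push Not at hcon
    have h1 : ∑ z ∈ univ.erase (1 : F), m c z = q - m c 1 := by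
      have := sum_m (c := c)
      rw [← Finset.add_sum_erase _ _ (Finset.mem_univ (1 : F))] at this
      linarith
    have h2 : ∑ z ∈ univ.erase (1 : F), m c z ^ 2 = D * (q - m c 1) := by
      rw [← Finset.add_sum_erase _ _ (Finset.mem_univ (1 : F))] at hmm
      rw [hD]
      rw [hD] at hmm
      linear_combination hmm
    have h3 : 0 < q - m c 1 := by
      have h4 : q - m c 1 = D * ((T w).card - 1) := by
        rw [hD] at hTcard ⊢
        linear_combination -hTcard
      rw [h4]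
      apply mul_pos hDpos
      have : (2 : ℤ) ≤ (T w).card := by exact_mod_cast hT2
      linarith
    have h5 : ∑ z ∈ univ.erase (1 : F), m c z * (m c z - D) = 0 := by
      have : ∀ z, m c z * (m c z - D) = m c z ^ 2 - D * m c z := by intro z; ring
      simp only [this]
      rw [Finset.sum_sub_distrib, ← Finset.mul_sum, h1, h2]
      ring
    have h6 : ∀ z ∈ univ.erase (1 : F), 0 ≤ m c z * (m c z - D) := by
      intro z hz
      rcases (m_nonneg (c := c) z).eq_or_lt with h' | h'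
      · rw [← h']; simp
      · exact mul_nonneg h'.le (by linarith [hcon z (Finset.mem_erase.1 hz).1 h'])
    have h7 := (Finset.sum_eq_zero_iff_of_nonneg h6).1 h5
    have h8 : ∑ z ∈ univ.erase (1 : F), m c z = 0 := by
      refine Finset.sum_eq_zero fun z hz => ?_
      rcases (m_nonneg (c := c) z).eq_or_lt with h' | h'
      · exact h'.symm
      · have h9 := h7 z hz
        have h10 := hcon z (Finset.mem_erase.1 hz).1 h'
        rcases mul_eq_zero.1 h9 with h11 | h11
        · exact h11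
        · linarith
    linarith
  obtain ⟨z0, hz0, hmpos, hmD⟩ := hex
  have hGle : G ≤ (p : ℤ) ^ d := by
    have h1 := Int.le_of_dvd hmpos (hdivm z0 hz0)
    have h2 : α * β * G ≤ α * β * (p : ℤ) ^ d := by
      calc α * β * G ≤ m c z0 := h1
        _ ≤ D := hmD
        _ = α * β * (p : ℤ) ^ d := by rw [hDd]; ring
    exact le_of_mul_le_mul_left h2 (mul_pos hα hβ)
  -- the minimum is at most k
  have hmin : a ≤ k ∨ b ≤ k := by
    by_contra hcon
    push Not at hcon
    apply hV
    intro x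
    have dA : (p : ℤ) ^ (k + 1) ∣ A := by
      rw [hAf]; exact Dvd.dvd.mul_right (pow_dvd_pow _ hcon.1) _
    have dB : (p : ℤ) ^ (k + 1) ∣ B := by
      rw [hBf', dvd_neg]; exact Dvd.dvd.mul_right (pow_dvd_pow _ hcon.2) _
    rcases hall x with h' | h' | h' <;> rw [h']
    · exact dvd_zero _
    · exact dA
    · exact dB
  have hpa : (1 : ℤ) ≤ (p : ℤ) ^ a := one_le_pow₀ (by linarith)
  have hpb : (1 : ℤ) ≤ (p : ℤ) ^ b := one_le_pow₀ (by linarith)
  have hABge : (p : ℤ) ^ a + (p : ℤ) ^ b ≤ A - B := by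
    rw [hAf, hBf']
    nlinarith
  have haeq : a = b := by
    rcases lt_trichotomy a b with hlt | heq | hlt
    · exfalso
      have hga : g ≤ a := by
        by_contra hcon
        push Not at hcon
        have h1 : (p : ℤ) ^ (a + 1) ∣ A - B := by
          rw [hGf]; exact Dvd.dvd.mul_right (pow_dvd_pow _ hcon) _
        have h2 : (p : ℤ) ^ (a + 1) ∣ B := by
          rw [hBf', dvd_neg]; exact Dvd.dvd.mul_right (pow_dvd_pow _ hlt) _
        have h3 : (p : ℤ) ^ (a + 1) ∣ A := by
          have := dvd_add h1 h2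
          simpa using this
        rw [hAf, pow_succ] at h3
        exact pα ((mul_dvd_mul_iff_left (by positivity)).1 h3)
      have h1 : (p : ℤ) ^ b < (p : ℤ) ^ (a + d) := by
        calc (p : ℤ) ^ b < (p : ℤ) ^ a + (p : ℤ) ^ b := by linarith
          _ ≤ A - B := hABge
          _ = (p : ℤ) ^ g * G := hGf
          _ ≤ (p : ℤ) ^ a * (p : ℤ) ^ d := by
              apply mul_le_mul (pow_le_pow_right₀ (by linarith) hga) hGle hG.le (by positivity)
          _ = (p : ℤ) ^ (a + d) := by rw [pow_add]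
      have h2 : b < a + d := (pow_lt_pow_iff_right₀ (by linarith)).1 h1
      omega
    · exact heq
    · exfalso
      have hgb : g ≤ b := by
        by_contra hcon
        push Not at hcon
        have h1 : (p : ℤ) ^ (b + 1) ∣ A - B := by
          rw [hGf]; exact Dvd.dvd.mul_right (pow_dvd_pow _ hcon) _
        have h2 : (p : ℤ) ^ (b + 1) ∣ A := by
          rw [hAf]; exact Dvd.dvd.mul_right (pow_dvd_pow _ hlt) _
        have h3 : (p : ℤ) ^ (b + 1) ∣ -B := by
          have := dvd_sub h1 h2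
          simpa using this
        rw [hBf, pow_succ] at h3
        exact pβ ((mul_dvd_mul_iff_left (by positivity)).1 h3)
      have h1 : (p : ℤ) ^ a < (p : ℤ) ^ (b + d) := by
        calc (p : ℤ) ^ a < (p : ℤ) ^ a + (p : ℤ) ^ b := by linarith
          _ ≤ A - B := hABge
          _ = (p : ℤ) ^ g * G := hGf
          _ ≤ (p : ℤ) ^ b * (p : ℤ) ^ d := by
              apply mul_le_mul (pow_le_pow_right₀ (by linarith) hgb) hGle hG.le (by positivity)
          _ = (p : ℤ) ^ (b + d) := by rw [pow_add]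
      have h2 : a < b + d := (pow_lt_pow_iff_right₀ (by linarith)).1 h1
      omega
  subst haeq
  have hak : a = k := by omega
  subst hak
  have hd0 : d = 0 := by omega
  subst hd0
  rw [pow_zero] at hGle
  have hG1 : G = 1 := by linarith
  rw [hG1, mul_one] at hGf
  have hge : a ≤ g := by
    by_contra hcon
    push Not at hcon
    have h1 : (p : ℤ) ^ g < (p : ℤ) ^ a := pow_lt_pow_right₀ (by linarith) hcon
    linarith
  obtain ⟨e, rfl⟩ := Nat.exists_eq_add_of_le hge
  have hsum : α + β = (p : ℤ) ^ e := by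
    have h1 : (p : ℤ) ^ a * (α + β) = (p : ℤ) ^ a * (p : ℤ) ^ e := by
      rw [← pow_add, ← hGf, hAf, hBf']; ring
    exact mul_left_cancel₀ (by positivity) h1
  rw [pow_zero, one_mul] at hDd
  -- counts
  set NA : ℤ := ((univ.filter fun x => w x = A).card : ℤ) with hNA
  set NB : ℤ := ((univ.filter fun x => w x = B).card : ℤ) with hNB
  have hw : ∀ x, w x = A * (if w x = A then 1 else 0) + B * (if w x = B then 1 else 0) := by
    intro x
    rcases hall x with h' | h' | h'
    · rw [h', if_neg hA.ne, if_neg hB.ne.symm]; ring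
    · rw [h', if_pos rfl, if_neg (by linarith)]; ring
    · rw [h', if_pos rfl, if_neg (by linarith)]; ring
  have hw2 : ∀ x, w x ^ 2 = A ^ 2 * (if w x = A then 1 else 0) +
      B ^ 2 * (if w x = B then 1 else 0) := by
    intro x
    rcases hall x with h' | h' | h'
    · rw [h', if_neg hA.ne, if_neg hB.ne.symm]; ring
    · rw [h', if_pos rfl, if_neg (by linarith)]; ring
    · rw [h', if_pos rfl, if_neg (by linarith)]; ring
  have hcA : ∑ x, (if w x = A then (1 : ℤ) else 0) = NA := by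
    rw [hNA, Finset.card_filter]; push_cast; rfl
  have hcB : ∑ x, (if w x = B then (1 : ℤ) else 0) = NB := by
    rw [hNB, Finset.card_filter]; push_cast; rfl
  have hs1 : A * NA + B * NB = q := by
    rw [hqdef, ← h.sum, Finset.sum_congr rfl fun x _ => hw x, Finset.sum_add_distrib,
      ← Finset.mul_sum, ← Finset.mul_sum, hcA, hcB]
  have hs2 : A ^ 2 * NA + B ^ 2 * NB = q ^ 2 := by
    rw [hqdef, ← h.sum_sq, Finset.sum_congr rfl fun x _ => hw2 x, Finset.sum_add_distrib,
      ← Finset.mul_sum, ← Finset.mul_sum, hcA, hcB]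
  have hq2 : q = (p : ℤ) ^ a * (p : ℤ) ^ a := by rw [hqZ]; ring
  set r : ℤ := (p : ℤ) ^ a with hr
  have hrpos : 0 < r := by positivity
  have hs1' : α * NA - β * NB = r := by
    have : r * (α * NA - β * NB) = r * r := by
      rw [hAf, hBf', hq2] at hs1
      linear_combination hs1
    exact mul_left_cancel₀ hrpos.ne' this
  have hs2' : α ^ 2 * NA + β ^ 2 * NB = r * r := by
    have : r * r * (α ^ 2 * NA + β ^ 2 * NB) = r * r * (r * r) := by
      rw [hAf, hBf', hq2] at hs2
      linear_combination hs2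
    exact mul_left_cancel₀ (by positivity) this
  have hNA' : NA * α * (p : ℤ) ^ e = r * (r + β) := by
    rw [← hsum]; linear_combination hs2' + β * hs1'
  have hNB' : NB * β * (p : ℤ) ^ e = r * (r - α) := by
    rw [← hsum]; linear_combination hs2' - α * hs1'
  have hm1' : m c 1 = r * (α - β) + α * β := by
    have : m c 1 = D + A + B := by rw [hD]; ring
    rw [this, hDd, hAf, hBf']; ring
  obtain ⟨f, c1, c2, c3, c4, c5, c6⟩ := cofactor hp hp5 hk hα hβ pα pβ hsum hNA' hNB' hm1' hm2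
  refine ⟨e, f, α, β, hAf, hBf', hα, hβ, pα, pβ, hsum, c1, c2, c3, c4, c5, c6, ?_⟩
  rw [← hDd, hTcard, hq2, hAf, hBf']
  ring

end IsWeil

end Run7.h803
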