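import Pool.Agent.Run7.h803.Rat2
import Pool.Agent.Run7.h803.Str
import Pool.Agent.Run7.h803.Norm
import Pool.Agent.Run7.h803.Grp

open Finset

namespace Run7.h803

set_option linter.unusedSectionVars false

universe u

theorem exists_subfield {p : ℕ} [Fact p.Prime] (L : Type u) [Field L] [Fintype L]
    [Algebra (ZMod p) L] {k : ℕ} (hL : Module.finrank (ZMod p) L = 2 ^ (k + 1)) :
    ∃ K : IntermediateField (ZMod p) L, Module.finrank (ZMod p) K = 2 ^ k ∧
      Module.finrank K L = 2 := by
  have h0 : (2 : ℕ) ^ k ≠ 0 := by positivity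
  have h1 : Module.finrank (ZMod p) (GaloisField p (2 ^ k)) = 2 ^ k := GaloisField.finrank p h0
  obtain ⟨f⟩ := FiniteField.nonempty_algHom_of_finrank_dvd (F := ZMod p)
    (K := GaloisField p (2 ^ k)) (L := L) (by rw [h1, hL]; exact pow_dvd_pow 2 (Nat.le_succ k))
  have h2 : Module.finrank (ZMod p) f.fieldRange = 2 ^ k :=
    ((AlgEquiv.ofInjectiveField f).toLinearEquiv.finrank_eq.symm).trans h1
  refine ⟨f.fieldRange, h2, ?_⟩
  have h3 := Module.finrank_mul_finrank (ZMod p) f.fieldRange L
  rw [h2, hL, pow_succ] at h3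
  exact Nat.eq_of_mul_eq_mul_left (by positivity) h3

theorem pow_bij {F : Type*} [Field F] [Fintype F] {s : ℕ} (hs0 : s ≠ 0)
    (hs : s.Coprime (Fintype.card F - 1)) : Function.Bijective (fun x : F => x ^ s) := by
  rw [← Finite.injective_iff_bijective]
  intro x y h
  simp only at h
  by_cases hy : y = 0
  · subst hy
    rw [zero_pow hs0] at h
    exact pow_eq_zero_iff hs0 |>.1 h
  · have hx : x ≠ 0 := by
      rintro rfl
      rw [zero_pow hs0] at h
      exact hy (pow_eq_zero_iff hs0 |>.1 h.symm)
    have h1 : (x / y) ^ s = 1 := by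
      rw [div_pow, h, div_self (pow_ne_zero _ hy)]
    have h2 : (x / y) ^ (Fintype.card F - 1) = 1 :=
      FiniteField.pow_card_sub_one_eq_one _ (div_ne_zero hx hy)
    have h3 : (x / y) ^ (Nat.gcd s (Fintype.card F - 1)) = 1 := pow_gcd_eq_one.2 ⟨h1, h2⟩
    rw [hs.gcd_eq_one, pow_one] at h3
    rwa [div_eq_one_iff_eq hy] at h3

section

variable {p : ℕ} [Fact p.Prime]

theorem uu_of_fix {F : Type*} [Field F] [Fintype F] [Algebra (ZMod p) F] {s : ℕ}
    (hb : Function.Bijective (fun x : F => x ^ s)) (hfix : ∀ j : ZMod p, j ^ s = j) {m : ℕ}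
    (hm : m.Coprime p) : uu p hb m = 1 := by
  have hm0 : algebraMap (ZMod p) F m ≠ 0 := by
    rw [Ne, map_eq_zero, ZMod.natCast_eq_zero_iff]
    intro hd
    have h1 := Nat.dvd_gcd hd (dvd_refl p)
    rw [hm] at h1
    exact (Fact.out : p.Prime).one_lt.ne' (Nat.dvd_one.1 h1)
  have h1 : root hb (algebraMap (ZMod p) F m) = algebraMap (ZMod p) F m := by
    have := pow_root hb (algebraMap (ZMod p) F m)
    rwa [← map_pow, hfix] at this
  unfold uu
  rw [h1]
  exact mul_inv_cancel₀ hm0

theorem fix_of_uu {F : Type*} [Field F] [Fintype F] [Algebra (ZMod p) F] {s : ℕ}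
    (hb : Function.Bijective (fun x : F => x ^ s))
    (h : ∀ m : ℕ, m.Coprime p → uu p hb m = 1) (j : ZMod p) : j ^ s = j := by
  by_cases hj : j = 0
  · rw [hj, zero_pow (s_ne_zero hb)]
  · have hm : j.val.Coprime p := by
      have h1 : j.val ≠ 0 := by rwa [Ne, ZMod.val_eq_zero]
      exact (Nat.coprime_of_lt_prime h1 (ZMod.val_lt j) (Fact.out : p.Prime)).symm
    have h1 := h _ hm
    unfold uu at h1
    rw [ZMod.natCast_zmod_val] at h1
    have hr : root hb (algebraMap (ZMod p) F j) ≠ 0 := by
      apply root_ne_zero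
      rwa [Ne, map_eq_zero]
    have h2 : algebraMap (ZMod p) F j = root hb (algebraMap (ZMod p) F j) :=
      (mul_inv_eq_one₀ hr).1 h1
    have h3 := root_pow hb (algebraMap (ZMod p) F j)
    rw [← h2, ← map_pow] at h3
    exact (algebraMap (ZMod p) F).injective h3

theorem exists_w {F : Type*} [Field F] [Fintype F] [Algebra (ZMod p) F] {s : ℕ}
    (hb : Function.Bijective (fun x : F => x ^ s)) (hfix : ∀ j : ZMod p, j ^ s = j) :
    ∃ w : F → ℤ, (∀ a, W (can p F) s a = w a) ∧ ∀ a, (p : ℤ) ∣ w a := by
  have hS : ∀ a : F, ∀ m : ℕ, m.Coprime p → S p s m a = W (can p F) s a := by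
    intro a m hm
    rw [S_eq hb hm, uu_of_fix hb hfix hm, one_mul]
  choose w hw using fun a : F => int_of_conj (hS a)
  refine ⟨w, hw, ?_⟩
  intro a
  have h1 := all_conj (hS a)
  rw [hw a] at h1
  have h2 : ((p : ℤ) - 1) * w a = p * ((univ.filter fun x : F =>
    Algebra.trace (ZMod p) F (x ^ s - a * x) = 0).card : ℤ) - Fintype.card F := by
    exact_mod_cast h1
  have h3 : (p : ℤ) ∣ Fintype.card F := by
    rw [← FiniteField.pow_finrank_eq_card p F]
    push_cast
    exact dvd_pow_self _ (Module.finrank_pos).ne'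
  have h4 : w a = p * w a - (p * ((univ.filter fun x : F =>
    Algebra.trace (ZMod p) F (x ^ s - a * x) = 0).card : ℤ)) + Fintype.card F := by linarith
  rw [h4]
  exact dvd_add (dvd_sub (dvd_mul_right _ _) (dvd_mul_right _ _)) h3

theorem isWeil_of {F : Type*} [Field F] [Fintype F] [DecidableEq F] [Algebra (ZMod p) F] {s : ℕ}
    (hb : Function.Bijective (fun x : F => x ^ s)) (hs : Odd s) {w : F → ℤ}
    (hw : ∀ a, W (can p F) s a = w a) : IsWeil w (cf hb) where
  zero := by
    have := hw 0
    rw [W_zero (can_primitive F) hb] at this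
    exact_mod_cast this.symm
  sum := by
    have := sum_W (can_primitive (p := p) F) hb
    simp only [hw] at this
    exact_mod_cast this
  corr := by
    intro u
    have := corr_W (can_primitive (p := p) F) hb hs u
    simp only [hw] at this
    exact_mod_cast this
  sqr := by
    intro a
    have := W_sq (ψ := can p F) hb hs a
    simp only [hw] at this
    exact_mod_cast this
  cne := cf_ne_zero hb hs

/-- Additivity of the power map from a nonnegative spectrum. -/
theorem add_of_nonneg {F : Type*} [Field F] [Fintype F] [DecidableEq F] {s : ℕ}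
    (hb : Function.Bijective (fun x : F => x ^ s)) (hs : Odd s) {w : F → ℤ}
    (h : IsWeil w (cf hb)) (hn : ∀ a, 0 ≤ w a) (y z : F) : (y + z) ^ s = y ^ s + z ^ s := by
  have hq0 : (0 : ℤ) < Fintype.card F := by
    have : 0 < Fintype.card F := Fintype.card_pos
    exact_mod_cast this
  have hex : ∃ a, w a ≠ 0 := by
    by_contra hcon
    push Not at hcon
    have h1 := h.sum
    simp only [hcon, Finset.sum_const_zero] at h1
    linarith
  obtain ⟨a0, ha0⟩ := hex
  have hzero : ∀ a, a ≠ a0 → w a = 0 := by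
    intro a ha
    by_contra hne
    exact ha (h.nonneg_unique hn hne ha0)
  have h1 : w a0 = Fintype.card F := by
    rw [← h.sum]
    symm
    exact Finset.sum_eq_single a0 (fun b _ hb => hzero b hb) (fun h => absurd (Finset.mem_univ _) h)
  have h2 := h.sum_cube
  rw [Finset.sum_eq_single a0 (fun b _ hb => by rw [hzero b hb]; ring)
    (fun h => absurd (Finset.mem_univ _) h), h1] at h2
  have h3 : IsWeil.m (cf hb) (1 : F) = Fintype.card F := by
    have h4 : (Fintype.card F : ℤ) ^ 2 * IsWeil.m (cf hb) (1 : F) =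
      (Fintype.card F : ℤ) ^ 2 * Fintype.card F := by rw [← h2]; ring
    exact mul_left_cancel₀ (by positivity) h4
  have h4 : ∀ t : F, Fp s t = 1 := by
    intro t
    unfold IsWeil.m at h3
    have h5 : (univ.filter fun t : F => cf hb t = 1).card = (univ : Finset F).card := by
      exact_mod_cast h3
    have h6 := Finset.eq_univ_of_card _ h5
    have h7 : t ∈ univ.filter fun t : F => cf hb t = 1 := by rw [h6]; exact Finset.mem_univ _
    exact (cf_eq_one_iff hb t).1 (Finset.mem_filter.1 h7).2
  by_cases hyz : y + z = 0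
  · have : z = -y := by linear_combination hyz
    rw [this, neg_pow_s hs, add_neg_cancel, add_neg_cancel, zero_pow (s_ne_zero hb)]
  · have h5 := h4 (y / (y + z))
    unfold Fp at h5
    have h6 : (1 : F) - y / (y + z) = z / (y + z) := by field_simp; ring
    rw [h6, div_pow, div_pow] at h5
    field_simp at h5
    exact h5.symm

theorem add_of_finrank_one {F : Type*} [Field F] [Fintype F] [Algebra (ZMod p) F] {s : ℕ}
    (hfix : ∀ j : ZMod p, j ^ s = j) (h1 : Module.finrank (ZMod p) F = 1) (y z : F) :
    (y + z) ^ s = y ^ s + z ^ s := by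
  have hsurj : ∀ y : F, ∃ j : ZMod p, algebraMap (ZMod p) F j = y := by
    intro y
    obtain ⟨c, hc⟩ := exists_smul_eq_of_finrank_eq_one h1 (one_ne_zero (α := F)) y
    exact ⟨c, by rw [← hc, Algebra.smul_def, mul_one]⟩
  obtain ⟨j, rfl⟩ := hsurj y
  obtain ⟨l, rfl⟩ := hsurj z
  rw [← map_add, ← map_pow, ← map_pow, ← map_pow, hfix, hfix, hfix, map_add]

theorem ringChar_ne_two (hp5 : 5 ≤ p) (F : Type*) [Field F] [Algebra (ZMod p) F] :
    ringChar F ≠ 2 := by
  have hc : CharP F p := charP_of_injective_algebraMap (algebraMap (ZMod p) F).injective p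
  rw [ringChar.eq F p]
  omega

/-- Data of a subfield of index two. -/
theorem sub_data (L : Type u) [Field L] [Fintype L] [Algebra (ZMod p) L]
    {k s : ℕ} (hL : Module.finrank (ZMod p) L = 2 ^ (k + 1))
    (hs : s.Coprime (Fintype.card L - 1)) :
    ∃ (K : IntermediateField (ZMod p) L) (_ : Fintype K), Module.finrank (ZMod p) K = 2 ^ k ∧
      Module.finrank K L = 2 ∧ Fintype.card K = p ^ (2 ^ k) ∧
      s.Coprime (Fintype.card K - 1) := by
  classical
  obtain ⟨K, h1, h2⟩ := exists_subfield L hL
  have hK : Fintype K := Fintype.ofFinite K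
  refine ⟨K, hK, h1, h2, ?_, ?_⟩
  · rw [← FiniteField.pow_finrank_eq_card p K, h1]
  · refine Nat.Coprime.coprime_dvd_right ?_ hs
    rw [card_quad h2]
    simpa only [one_pow] using Nat.sub_dvd_pow_sub_pow (Fintype.card K) 1 2

/-- Upper bound for the divisibility of the spectrum. -/
theorem val_bound (hp5 : 5 ≤ p) {s : ℕ} (hs0 : s ≠ 0) (hs : Odd s)
    (hfix : ∀ j : ZMod p, j ^ s = j) (k : ℕ) :
    ∀ (L : Type u) [Field L] [Fintype L] [Algebra (ZMod p) L],
      Module.finrank (ZMod p) L = 2 ^ (k + 1) → s.Coprime (Fintype.card L - 1) →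
      (¬ ∀ y z : L, (y + z) ^ s = y ^ s + z ^ s) →
      ∀ w : L → ℤ, (∀ a, W (can p L) s a = w a) → ¬ ∀ a, (p : ℤ) ^ (2 ^ k + 1) ∣ w a := by
  have hp : p.Prime := Fact.out
  have hp0 : (0 : ℤ) < p := by exact_mod_cast hp.pos
  have hp1 : (1 : ℤ) < p := by exact_mod_cast hp.one_lt
  induction k with
  | zero =>
    intro L _ _ _ hL hcop hnadd w hw hdiv
    classical
    have hb := pow_bij hs0 hcop
    obtain ⟨K, hKf, h1, h2, hcK, hcopK⟩ := sub_data L hL hcop
    have haddK : ∀ y z : K, (y + z) ^ s = y ^ s + z ^ s :=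
      add_of_finrank_one hfix (by simpa using h1)
    apply hnadd
    apply add_of_nonneg hb hs (isWeil_of hb hs hw)
    intro a
    have h3 := niho_bound (K := K) h2 hb haddK a (hw a)
    by_contra hneg
    push Not at hneg
    have h4 := Int.le_of_dvd (by linarith : 0 < - w a) ((dvd_neg).2 (hdiv a))
    have h3' : -(p : ℤ) ^ (2 ^ 0) ≤ w a := by
      rw [hcK] at h3
      exact_mod_cast h3
    rw [pow_succ] at h4
    have h5 : (p : ℤ) ^ (2 ^ 0) * 1 < (p : ℤ) ^ (2 ^ 0) * p :=
      mul_lt_mul_of_pos_left hp1 (by positivity)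
    linarith
  | succ k ih =>
    intro L _ _ _ hL hcop hnadd w hw hdiv
    classical
    have hb := pow_bij hs0 hcop
    obtain ⟨K, hKf, h1, h2, hcK, hcopK⟩ := sub_data L hL hcop
    have hbK := pow_bij hs0 hcopK
    by_cases haddK : ∀ y z : K, (y + z) ^ s = y ^ s + z ^ s
    · apply hnadd
      apply add_of_nonneg hb hs (isWeil_of hb hs hw)
      intro a
      have h3 := niho_bound (K := K) h2 hb haddK a (hw a)
      by_contra hneg
      push Not at hneg
      have h4 := Int.le_of_dvd (by linarith : 0 < - w a) ((dvd_neg).2 (hdiv a))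
      rw [hcK] at h3
      push_cast at h3
      rw [pow_succ] at h4
      have h5 : (p : ℤ) ^ (2 ^ (k + 1)) * 1 < (p : ℤ) ^ (2 ^ (k + 1)) * p :=
        mul_lt_mul_of_pos_left hp1 (by positivity)
      linarith
    · obtain ⟨wK, hwK, -⟩ := exists_w (F := K) (p := p) hbK hfix
      refine ih K h1 hcopK haddK wK hwK ?_
      have hIsK := isWeil_of hbK hs hwK
      have hconv : ∀ c : K, c ≠ 0 → (p : ℤ) ^ (2 * 2 ^ k + 1) ∣
          ∑ b ∈ univ.erase (0 : K), wK b * wK (c / b) := by
        intro c hc
        have h3 := norm_relation (L := L) h2 (ringChar_ne_two hp5 K) (can_primitive (p := p) K)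
          hbK hb hc
        rw [can_lift] at h3
        simp only [hw, hwK] at h3
        have h4 : ∑ a ∈ univ.filter (fun a : L => Algebra.norm K a = c), w a =
            ∑ b ∈ univ.erase (0 : K), wK b * wK (c / b) := by exact_mod_cast h3
        rw [← h4]
        refine Finset.dvd_sum fun a _ => ?_
        have e : 2 * 2 ^ k + 1 = 2 ^ (k + 1) + 1 := by ring
        rw [e]
        exact hdiv a
      have h5 := conv_half (p := p) (N := 2 ^ (k + 1)) Nat.one_le_two_pow hcK (2 ^ k) wK hconv
      intro b
      by_cases hb0 : b = 0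
      · rw [hb0, hIsK.zero]; exact dvd_zero _
      · exact h5 b hb0

/-- Double counting over the affine `K`-lines through a point of the support. -/
theorem line_count {K L : Type*} [Field K] [Field L] [Fintype K] [Fintype L] [DecidableEq L]
    [Algebra K L] (h2 : Module.finrank K L = 2) {T : Finset L} {P : L} (hP : P ∈ T) {N : ℕ}
    (h : ∀ g : L, g ≠ 0 → N ∣ (univ.filter fun y : K => P + algebraMap K L y * g ∈ T).card) :
    1 + (Fintype.card K + 1) * ((N : ℤ) - 1) ≤ T.card := by
  classical
  have h1 : ∀ g : L, g ≠ 0 →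
      N ≤ (univ.filter fun y : K => P + algebraMap K L y * g ∈ T).card := by
    intro g hg
    apply Nat.le_of_dvd _ (h g hg)
    apply Finset.card_pos.2
    exact ⟨0, Finset.mem_filter.2 ⟨Finset.mem_univ _, by simpa using hP⟩⟩
  have h3 : ∑ g ∈ univ.erase (0 : L), (univ.filter fun y : K => P + algebraMap K L y * g ∈ T).card
      = (Fintype.card L - 1) + (Fintype.card K - 1) * (T.card - 1) := by
    have e1 : ∀ g : L, (univ.filter fun y : K => P + algebraMap K L y * g ∈ T).card =
        ∑ y : K, if P + algebraMap K L y * g ∈ T then 1 else 0 := by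
      intro g; rw [Finset.card_filter]
    simp only [e1]
    rw [Finset.sum_comm, ← Finset.add_sum_erase _ _ (Finset.mem_univ (0 : K))]
    congr 1
    · simp [hP, Finset.card_erase_of_mem]
    · have e2 : ∀ y ∈ univ.erase (0 : K), ∑ g ∈ univ.erase (0 : L),
          (if P + algebraMap K L y * g ∈ T then 1 else 0) = T.card - 1 := by
        intro y hy
        have hy0 : algebraMap K L y ≠ 0 := by
          rw [Ne, map_eq_zero]
          exact (Finset.mem_erase.1 hy).1
        rw [← Finset.card_erase_of_mem hP, ← Finset.card_filter]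
        refine Finset.card_bij (fun g _ => P + algebraMap K L y * g) ?_ ?_ ?_
        · intro g hg
          rw [Finset.mem_filter, Finset.mem_erase] at hg
          rw [Finset.mem_erase]
          refine ⟨?_, hg.2⟩
          intro h0
          have : algebraMap K L y * g = 0 := by linear_combination h0
          rcases mul_eq_zero.1 this with h' | h'
          · exact hy0 h'
          · exact hg.1.1 h'
        · intro g _ g' _ hgg
          exact mul_left_cancel₀ hy0 (add_left_cancel hgg)
        · intro x hx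
          rw [Finset.mem_erase] at hx
          have e3 : P + algebraMap K L y * ((x - P) / algebraMap K L y) = x := by
            field_simp; ring
          refine ⟨(x - P) / algebraMap K L y, ?_, e3⟩
          rw [Finset.mem_filter, Finset.mem_erase]
          refine ⟨⟨?_, Finset.mem_univ _⟩, by rw [e3]; exact hx.2⟩
          exact div_ne_zero (sub_ne_zero.2 hx.1) hy0
      rw [Finset.sum_congr rfl e2, Finset.sum_const, Finset.card_erase_of_mem (Finset.mem_univ _),
        Finset.card_univ, smul_eq_mul]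
  have h4 : (Fintype.card L - 1) * N ≤ (Fintype.card L - 1) +
      (Fintype.card K - 1) * (T.card - 1) := by
    rw [← h3]
    have : ∑ g ∈ univ.erase (0 : L), N ≤ ∑ g ∈ univ.erase (0 : L),
        (univ.filter fun y : K => P + algebraMap K L y * g ∈ T).card :=
      Finset.sum_le_sum fun g hg => h1 g (Finset.mem_erase.1 hg).1
    rwa [Finset.sum_const, Finset.card_erase_of_mem (Finset.mem_univ _), Finset.card_univ,
      smul_eq_mul] at this
  have hT : 1 ≤ T.card := Finset.card_pos.2 ⟨P, hP⟩
  have hLc : 1 ≤ Fintype.card L := Fintype.card_pos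
  have hKc : 2 ≤ Fintype.card K := Fintype.one_lt_card
  have h5 : ((Fintype.card L : ℤ) - 1) * N ≤ ((Fintype.card L : ℤ) - 1) +
      ((Fintype.card K : ℤ) - 1) * ((T.card : ℤ) - 1) := by
    have h6 : (((Fintype.card L - 1) * N : ℕ) : ℤ) ≤ (((Fintype.card L - 1) +
      (Fintype.card K - 1) * (T.card - 1) : ℕ) : ℤ) := by exact_mod_cast h4
    push_cast [Nat.cast_sub hLc, Nat.cast_sub hT, Nat.cast_sub (le_trans one_le_two hKc)] at h6
    exact h6
  have h7 : (Fintype.card L : ℤ) = (Fintype.card K : ℤ) ^ 2 := by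
    rw [card_quad h2]; push_cast; rfl
  rw [h7] at h5
  have h8 : (2 : ℤ) ≤ Fintype.card K := by exact_mod_cast hKc
  have h9 : ((Fintype.card K : ℤ) - 1) * (1 + (Fintype.card K + 1) * ((N : ℤ) - 1)) ≤
      ((Fintype.card K : ℤ) - 1) * T.card := by linear_combination h5
  exact le_of_mul_le_mul_left h9 (by linarith)

end

end Run7.h803
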