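import Mathlib

open Finset

namespace Run7.h803

set_option linter.unusedSectionVars false

/-- The moment identities of an integer valued Weil spectrum `w`, with multipliers `c`. -/
structure IsWeil {F : Type*} [Field F] [Fintype F] [DecidableEq F] (w : F → ℤ) (c : F → F) :
    Prop where
  zero : w 0 = 0
  sum : ∑ a, w a = Fintype.card F
  corr : ∀ u : F, ∑ a, w a * w (u * a) = if u = 1 then (Fintype.card F : ℤ) ^ 2 else 0
  sqr : ∀ a : F, w a ^ 2 = ∑ t, w (a * c t)
  cne : ∀ t : F, c t ≠ 0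

namespace IsWeil

variable {F : Type*} [Field F] [Fintype F] [DecidableEq F] {w : F → ℤ} {c : F → F}

/-- The number of `t` with multiplier `z`. -/
def m (c : F → F) (z : F) : ℤ := (univ.filter fun t => c t = z).card

theorem m_nonneg (z : F) : 0 ≤ m c z := by unfold m; positivity

theorem sum_m : ∑ z, m c z = Fintype.card F := by
  unfold m
  rw [← Nat.cast_sum]
  congr 1
  rw [← Finset.card_eq_sum_card_fiberwise (f := c) (s := univ) (t := univ) (by simp)]
  rfl

theorem sum_sq (h : IsWeil w c) : ∑ a, w a ^ 2 = (Fintype.card F : ℤ) ^ 2 := by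
  have := h.corr 1
  simpa [sq] using this

theorem third (h : IsWeil w c) (z : F) :
    ∑ a, w a ^ 2 * w (z * a) = (Fintype.card F : ℤ) ^ 2 * m c z := by
  have h1 : ∀ a, w a ^ 2 * w (z * a) = ∑ t, w (a * c t) * w (z * a) := by
    intro a
    rw [h.sqr a, Finset.sum_mul]
  simp only [h1]
  rw [Finset.sum_comm]
  have h2 : ∀ t, ∑ a, w (a * c t) * w (z * a) =
      if c t = z then (Fintype.card F : ℤ) ^ 2 else 0 := by
    intro t
    have hc := h.cne t
    have h3 := h.corr (z * (c t)⁻¹)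
    rw [← Equiv.sum_comp (Equiv.mulRight₀ (c t) hc)
      (fun a => w a * w (z * (c t)⁻¹ * a))] at h3
    have h4 : ∀ a, w (Equiv.mulRight₀ (c t) hc a) *
        w (z * (c t)⁻¹ * Equiv.mulRight₀ (c t) hc a) = w (a * c t) * w (z * a) := by
      intro a
      change w (a * c t) * w (z * (c t)⁻¹ * (a * c t)) = _
      congr 2
      field_simp
    simp only [h4] at h3
    rw [h3]
    have h5 : (z * (c t)⁻¹ = 1) ↔ (c t = z) := by
      constructor
      · intro hh
        field_simp at hh
        exact hh.symm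
      · rintro rfl
        exact mul_inv_cancel₀ hc
    simp only [h5]
  simp only [h2]
  rw [Finset.sum_ite, Finset.sum_const_zero, add_zero, Finset.sum_const, nsmul_eq_mul, mul_comm]
  rfl

theorem sum_cube (h : IsWeil w c) :
    ∑ a, w a ^ 3 = (Fintype.card F : ℤ) ^ 2 * m c 1 := by
  rw [← h.third 1]
  refine Finset.sum_congr rfl fun a _ => ?_
  rw [one_mul]
  ring

theorem fourth (h : IsWeil w c) :
    ∑ a, w a ^ 4 = (Fintype.card F : ℤ) ^ 2 * ∑ z, m c z ^ 2 := by
  have h1 : ∀ a, w a ^ 4 = ∑ t, w a ^ 2 * w (c t * a) := by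
    intro a
    rw [← Finset.mul_sum]
    have : ∑ t, w (c t * a) = w a ^ 2 := by
      rw [h.sqr a]
      refine Finset.sum_congr rfl fun t _ => ?_
      rw [mul_comm]
    rw [this]
    ring
  simp only [h1]
  rw [Finset.sum_comm]
  simp only [h.third]
  rw [← Finset.mul_sum]
  congr 1
  have h2 : ∀ z, m c z ^ 2 = ∑ t ∈ univ.filter (fun t => c t = z), m c (c t) := by
    intro z
    have : ∀ t ∈ univ.filter (fun t => c t = z), m c (c t) = m c z := by
      intro t ht
      rw [(Finset.mem_filter.1 ht).2]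
    rw [Finset.sum_congr rfl this, Finset.sum_const, nsmul_eq_mul, sq]
    rfl
  simp only [h2]
  rw [Finset.sum_fiberwise]

/-- A nonnegative spectrum has only one nonzero entry. -/
theorem nonneg_unique (h : IsWeil w c) (hn : ∀ a, 0 ≤ w a) {a b : F} (ha : w a ≠ 0)
    (hb : w b ≠ 0) : a = b := by
  by_contra hab
  have h1 : (∑ x, w x) ^ 2 = ∑ x, w x ^ 2 := by rw [h.sum, h.sum_sq]
  have h2 : ∀ s : Finset F, ∑ x ∈ s, w x ^ 2 ≤ (∑ x ∈ s, w x) ^ 2 := by
    intro s
    exact Finset.sum_sq_le_sq_sum_of_nonneg (fun i _ => hn i)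
  have h3 : ∑ x, w x = w a + ∑ x ∈ univ.erase a, w x := by
    rw [Finset.add_sum_erase _ _ (Finset.mem_univ a)]
  have h4 : ∑ x, w x ^ 2 = w a ^ 2 + ∑ x ∈ univ.erase a, w x ^ 2 := by
    rw [Finset.add_sum_erase _ (fun x => w x ^ 2) (Finset.mem_univ a)]
  have h5 : w b ≤ ∑ x ∈ univ.erase a, w x := by
    refine Finset.single_le_sum (f := w) (fun i _ => hn i) ?_
    exact Finset.mem_erase.2 ⟨fun hh => hab hh.symm, Finset.mem_univ _⟩
  have h6 := h2 (univ.erase a)
  have ha' : 0 < w a := lt_of_le_of_ne (hn a) (Ne.symm ha)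
  have hb' : 0 < w b := lt_of_le_of_ne (hn b) (Ne.symm hb)
  rw [h3, h4] at h1
  nlinarith [mul_pos ha' hb', mul_le_mul_of_nonneg_left h5 ha'.le]

/-- A spectrum with two nonzero entries has entries smaller than the cardinality. -/
theorem abs_lt (h : IsWeil w c) {a b : F} (hab : a ≠ b) (hb : w b ≠ 0) :
    |w a| < Fintype.card F := by
  have h1 : w a ^ 2 + w b ^ 2 ≤ ∑ x, w x ^ 2 := by
    rw [← Finset.add_sum_erase _ (fun x => w x ^ 2) (Finset.mem_univ a)]
    have : w b ^ 2 ≤ ∑ x ∈ univ.erase a, w x ^ 2 := by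
      refine Finset.single_le_sum (f := fun x => w x ^ 2) (fun i _ => sq_nonneg _) ?_
      exact Finset.mem_erase.2 ⟨fun hh => hab hh.symm, Finset.mem_univ _⟩
    linarith
  rw [h.sum_sq] at h1
  have h2 : 0 < w b ^ 2 := by positivity
  have h3 : w a ^ 2 < (Fintype.card F : ℤ) ^ 2 := by linarith
  exact abs_lt_of_sq_lt_sq h3 (by positivity)

end IsWeil

end Run7.h803
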