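import Pool.Agent.Run7.h803.Weil

open Finset

namespace Run7.h803

set_option linter.unusedSectionVars false

section quad

variable {K L : Type*} [Field K] [Field L] [Fintype K] [Fintype L] [Algebra K L]

theorem card_quad (h2 : Module.finrank K L = 2) : Fintype.card L = Fintype.card K ^ 2 := by
  rw [← h2]; exact Module.card_eq_pow_finrank

theorem trace_quad (h2 : Module.finrank K L = 2) (x : L) :
    algebraMap K L (Algebra.trace K L x) = x + x ^ Fintype.card K := by
  rw [FiniteField.algebraMap_trace_eq_sum_pow, h2]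
  simp [Finset.sum_range_succ]

theorem norm_quad (h2 : Module.finrank K L = 2) (x : L) :
    algebraMap K L (Algebra.norm K x) = x * x ^ Fintype.card K := by
  rw [FiniteField.algebraMap_norm_eq_prod_pow, h2]
  simp [Finset.prod_range_succ]

theorem conj_add (x y : L) :
    (x + y) ^ Fintype.card K = x ^ Fintype.card K + y ^ Fintype.card K := by
  have := map_add (FiniteField.frobeniusAlgHom K L) x y
  simpa [FiniteField.frobeniusAlgHom_apply] using this

theorem conj_algebraMap (x : K) :
    (algebraMap K L x) ^ Fintype.card K = algebraMap K L x := by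
  rw [← map_pow, FiniteField.pow_card]

theorem exists_eps (h2 : Module.finrank K L = 2) (hK : (2 : K) ≠ 0) :
    ∃ (ε : L) (δ : K), ε ≠ 0 ∧ Algebra.trace K L ε = 0 ∧ algebraMap K L δ = ε ^ 2 ∧
      ¬ IsSquare δ := by
  classical
  have hinj : Function.Injective (algebraMap K L) := FaithfulSMul.algebraMap_injective K L
  have h1 : ¬ Function.Injective (Algebra.trace K L) := by
    intro hi
    have h3 := Fintype.card_le_of_injective _ hi
    rw [card_quad h2] at h3
    have h4 : 1 < Fintype.card K := Fintype.one_lt_card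
    nlinarith
  rw [injective_iff_map_eq_zero] at h1
  push Not at h1
  obtain ⟨ε, hε, hε0⟩ := h1
  have hconj : ε ^ Fintype.card K = -ε := by
    have := trace_quad h2 ε
    rw [hε, map_zero] at this
    linear_combination -this
  refine ⟨ε, -Algebra.norm K ε, hε0, hε, ?_, ?_⟩
  · rw [map_neg, norm_quad h2, hconj]; ring
  · rintro ⟨y, hy⟩
    have h3 : ε ^ 2 = (algebraMap K L y) ^ 2 := by
      have h4 : algebraMap K L (-Algebra.norm K ε) = ε ^ 2 := by
        rw [map_neg, norm_quad h2, hconj]; ring
      rw [← h4, hy, map_mul]; ring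
    have h5 : ∃ z : K, ε = algebraMap K L z := by
      rcases sq_eq_sq_iff_eq_or_eq_neg.1 h3 with h | h
      · exact ⟨y, h⟩
      · exact ⟨-y, by rw [h, map_neg]⟩
    obtain ⟨z, hz⟩ := h5
    rw [hz, Algebra.trace_algebraMap, h2] at hε
    have h6 : (2 : K) * z = 0 := by
      rw [← hε]; simp
    rcases mul_eq_zero.1 h6 with h | h
    · exact hK h
    · apply hε0; rw [hz, h, map_zero]

/-- Coordinates of `L` over `K`. -/
def par (ε : L) (z : K × K) : L := algebraMap K L z.1 + algebraMap K L z.2 * ε

theorem par_trace (h2 : Module.finrank K L = 2) {ε : L} (hε : Algebra.trace K L ε = 0)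
    (z : K × K) : Algebra.trace K L (par ε z) = 2 * z.1 := by
  unfold par
  rw [map_add, Algebra.trace_algebraMap, h2, ← Algebra.smul_def, map_smul, hε]
  simp

theorem conj_eps (h2 : Module.finrank K L = 2) {ε : L} (hε : Algebra.trace K L ε = 0) :
    ε ^ Fintype.card K = -ε := by
  have := trace_quad h2 ε
  rw [hε, map_zero] at this
  linear_combination -this

theorem par_norm (h2 : Module.finrank K L = 2) {ε : L} {δ : K} (hε : Algebra.trace K L ε = 0)
    (hδ : algebraMap K L δ = ε ^ 2) (z : K × K) :
    Algebra.norm K (par ε z) = z.1 ^ 2 - δ * z.2 ^ 2 := by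
  apply FaithfulSMul.algebraMap_injective K L
  rw [norm_quad h2]
  unfold par
  rw [conj_add, mul_pow, conj_algebraMap, conj_algebraMap, conj_eps h2 hε, map_sub, map_mul,
    map_pow, map_pow, hδ]
  ring

theorem par_bij (h2 : Module.finrank K L = 2) (hK : (2 : K) ≠ 0) {ε : L} (hε0 : ε ≠ 0)
    (hε : Algebra.trace K L ε = 0) : Function.Bijective (par (K := K) ε) := by
  classical
  rw [Fintype.bijective_iff_injective_and_card]
  constructor
  · intro z z' h
    have h1 : z.1 = z'.1 := by
      have := congrArg (Algebra.trace K L) h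
      rw [par_trace h2 hε, par_trace h2 hε] at this
      exact mul_left_cancel₀ hK this
    have h3 : z.2 = z'.2 := by
      unfold par at h
      rw [h1] at h
      have h4 := add_left_cancel h
      have h5 := mul_right_cancel₀ hε0 h4
      exact FaithfulSMul.algebraMap_injective K L h5
    exact Prod.ext h1 h3
  · rw [Fintype.card_prod, card_quad h2]; ring

theorem card_solutions (hK : ringChar K ≠ 2) [DecidableEq K] {δ : K} (hδ : ¬ IsSquare δ) {t : K}
    (ht : t ≠ 0) (x : K) :
    ((univ.filter fun z : K => x ^ 2 - δ * z ^ 2 = t).card : ℤ) +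
      (((univ.erase (0 : K)).filter fun u : K => u + t / u = 2 * x).card : ℤ) = 2 := by
  have hδ0 : δ ≠ 0 := by rintro rfl; exact hδ (IsSquare.zero)
  have h1 := quadraticChar_card_sqrts hK ((x ^ 2 - t) / δ)
  have h3 := quadraticChar_card_sqrts hK (x ^ 2 - t)
  have e1 : ({z : K | z ^ 2 = (x ^ 2 - t) / δ}).toFinset =
      univ.filter fun z : K => x ^ 2 - δ * z ^ 2 = t := by
    ext z
    simp only [Set.mem_toFinset, Set.mem_ofPred_eq, Finset.mem_filter, Finset.mem_univ, true_and]
    rw [eq_div_iff hδ0]
    constructor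
    · intro h; linear_combination -h
    · intro h; linear_combination -h
  have e3 : ({z : K | z ^ 2 = x ^ 2 - t}).toFinset.card =
      ((univ.erase (0 : K)).filter fun u : K => u + t / u = 2 * x).card := by
    refine Finset.card_bij (fun v _ => x + v) ?_ ?_ ?_
    · intro v hv
      simp only [Set.mem_toFinset, Set.mem_ofPred_eq] at hv
      have hne : x + v ≠ 0 := by
        intro h0
        have : v = -x := by linear_combination h0
        rw [this] at hv
        apply ht
        linear_combination hv
      simp only [Finset.mem_filter, Finset.mem_erase, Finset.mem_univ, and_true]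
      refine ⟨hne, ?_⟩
      field_simp
      linear_combination hv
    · intro v _ v' _ h
      exact add_left_cancel h
    · intro u hu
      simp only [Finset.mem_filter, Finset.mem_erase, Finset.mem_univ, and_true] at hu
      refine ⟨u - x, ?_, by ring⟩
      simp only [Set.mem_toFinset, Set.mem_ofPred_eq]
      obtain ⟨h0, h4⟩ := hu
      field_simp at h4
      linear_combination h4
  rw [e1] at h1
  rw [e3] at h3
  rw [h1, h3, div_eq_mul_inv, map_mul]
  have h5 : quadraticChar K δ⁻¹ = -1 := by
    rw [quadraticChar_neg_one_iff_not_isSquare]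
    rintro ⟨y, hy⟩
    apply hδ
    refine ⟨y⁻¹, ?_⟩
    rw [← mul_inv, ← hy, inv_inv]
  rw [h5]
  ring

theorem two_inj (hK : (2 : K) ≠ 0) : Function.Bijective (fun x : K => 2 * x) :=
  mulLeft_bijective₀ 2 hK

theorem norm_trace_sum [DecidableEq K] (h2 : Module.finrank K L = 2) (hK : ringChar K ≠ 2)
    (f : K → ℂ) {t : K} (ht : t ≠ 0) :
    ∑ w ∈ univ.filter (fun w : L => Algebra.norm K w = t), f (Algebra.trace K L w) +
      ∑ u ∈ univ.erase (0 : K), f (u + t / u) = 2 * ∑ x : K, f x := by
  have hK2 : (2 : K) ≠ 0 := Ring.two_ne_zero hK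
  obtain ⟨ε, δ, hε0, hε, hδ, hns⟩ := exists_eps h2 hK2
  have hbij := par_bij h2 hK2 hε0 hε
  have e1 : ∑ w ∈ univ.filter (fun w : L => Algebra.norm K w = t), f (Algebra.trace K L w) =
      ∑ x : K, ((univ.filter fun z : K => x ^ 2 - δ * z ^ 2 = t).card : ℂ) * f (2 * x) := by
    rw [Finset.sum_filter, ← Equiv.sum_comp (Equiv.ofBijective _ hbij), Fintype.sum_prod_type]
    refine Finset.sum_congr rfl fun x _ => ?_
    simp only [Equiv.ofBijective_apply, par_norm h2 hε hδ, par_trace h2 hε]
    rw [← Finset.sum_filter, Finset.sum_const, nsmul_eq_mul]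
  have e2 : ∑ u ∈ univ.erase (0 : K), f (u + t / u) =
      ∑ x : K, (((univ.erase (0 : K)).filter fun u : K => u + t / u = 2 * x).card : ℂ) *
        f (2 * x) := by
    rw [← Finset.sum_fiberwise (univ.erase (0 : K)) (fun u => u + t / u)
      (fun u => f (u + t / u))]
    rw [← Equiv.sum_comp (Equiv.ofBijective _ (two_inj hK2))]
    refine Finset.sum_congr rfl fun x _ => ?_
    simp only [Equiv.ofBijective_apply]
    rw [← nsmul_eq_mul, ← Finset.sum_const]
    refine Finset.sum_congr rfl fun u hu => ?_
    rw [(Finset.mem_filter.1 hu).2]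
  rw [e1, e2, ← Finset.sum_add_distrib]
  have e3 : ∀ x : K, ((univ.filter fun z : K => x ^ 2 - δ * z ^ 2 = t).card : ℂ) * f (2 * x) +
      (((univ.erase (0 : K)).filter fun u : K => u + t / u = 2 * x).card : ℂ) * f (2 * x) =
      2 * f (2 * x) := by
    intro x
    rw [← add_mul]
    congr 1
    have := card_solutions hK hns ht x
    exact_mod_cast this
  simp only [e3]
  rw [← Finset.mul_sum, ← Equiv.sum_comp (Equiv.ofBijective _ (two_inj hK2)) f]
  rfl

end quad

end Run7.h803
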