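import Pool.Agent.Run7.h803.Rel

open Finset Polynomial

namespace Run7.h803

set_option linter.unusedSectionVars false

section rat

theorem lift_primitive {K L : Type*} [Field K] [Field L] [Finite K] [Finite L] [Algebra K L]
    {ψ : AddChar K ℂ} (hψ : ψ.IsPrimitive) : (lift L ψ).IsPrimitive := by
  apply AddChar.IsPrimitive.of_ne_one
  intro h
  have h1 : ψ = 1 := by
    ext y
    obtain ⟨x, rfl⟩ := Algebra.trace_surjective K L y
    have := DFunLike.congr_fun h x
    simpa [lift_apply] using this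
  have h2 := hψ (one_ne_zero (α := K))
  apply h2
  rw [h1]
  ext
  simp

variable {p : ℕ} [Fact p.Prime]

/-- The canonical additive character of a finite field of characteristic `p`. -/
noncomputable def can (p : ℕ) [Fact p.Prime] (F : Type*) [Field F] [Algebra (ZMod p) F] :
    AddChar F ℂ := lift F (ZMod.stdAddChar (N := p))

theorem can_primitive (F : Type*) [Field F] [Finite F] [Algebra (ZMod p) F] :
    (can p F).IsPrimitive := lift_primitive (ZMod.isPrimitive_stdAddChar p)

theorem can_lift (K L : Type*) [Field K] [Field L] [Finite K] [Finite L] [Algebra (ZMod p) K]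
    [Algebra (ZMod p) L] [Algebra K L] [IsScalarTower (ZMod p) K L] :
    lift L (can p K) = can p L := by
  ext x
  unfold can
  rw [lift_apply, lift_apply, lift_apply, Algebra.trace_trace]

theorem std_mul (m : ℕ) (t : ZMod p) :
    ZMod.stdAddChar ((m : ZMod p) * t) = ((ZMod.stdAddChar (1 : ZMod p)) ^ m) ^ t.val := by
  rw [← pow_mul, ← AddChar.map_nsmul_eq_pow]
  congr 1
  rw [nsmul_eq_mul, mul_one]
  push_cast
  rw [ZMod.natCast_zmod_val]

theorem std_prim : IsPrimitiveRoot (ZMod.stdAddChar (1 : ZMod p)) p := by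
  have h0 : ∀ k : ℕ, (ZMod.stdAddChar (1 : ZMod p)) ^ k = ZMod.stdAddChar ((k : ZMod p)) := by
    intro k
    rw [← AddChar.map_nsmul_eq_pow, nsmul_eq_mul, mul_one]
  constructor
  · rw [h0]; simp
  · intro l hl
    rw [h0, ← AddChar.map_zero_eq_one (ZMod.stdAddChar (N := p))] at hl
    have := ZMod.injective_stdAddChar hl
    exact (ZMod.natCast_eq_zero_iff l p).1 this

variable {F : Type*} [Field F] [Fintype F] [Algebra (ZMod p) F] {s : ℕ}

/-- The conjugate sums. -/
noncomputable def S (p : ℕ) [Fact p.Prime] {F : Type*} [Field F] [Fintype F] [Algebra (ZMod p) F]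
    (s : ℕ) (m : ℕ) (a : F) : ℂ :=
  ∑ x : F, ZMod.stdAddChar ((m : ZMod p) * Algebra.trace (ZMod p) F (x ^ s - a * x))

theorem S_one (a : F) : S p s 1 a = W (can p F) s a := by
  unfold S W can
  refine Finset.sum_congr rfl fun x _ => ?_
  rw [lift_apply]
  simp

theorem galois_aux {m m' : ℕ} (hm : m.Coprime p) (hm' : m'.Coprime p) {a b : F}
    (h : S p s m a = S p s m b) : S p s m' a = S p s m' b := by
  set ζ : ℂ := ZMod.stdAddChar (1 : ZMod p) with hζ
  set P : F → ℤ[X] := fun a =>
    ∑ x : F, (X : ℤ[X]) ^ (Algebra.trace (ZMod p) F (x ^ s - a * x)).val with hP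
  have hS : ∀ (k : ℕ) (a : F), S p s k a = aeval (ζ ^ k) (P a) := by
    intro k a
    simp only [S, hP, map_sum, map_pow, aeval_X]
    refine Finset.sum_congr rfl fun x _ => ?_
    rw [std_mul]
  have hmin : minpoly ℤ (ζ ^ m) = minpoly ℤ (ζ ^ m') := by
    rw [← IsPrimitiveRoot.minpoly_eq_pow_coprime std_prim hm,
      ← IsPrimitiveRoot.minpoly_eq_pow_coprime std_prim hm']
  have hint : IsIntegral ℤ (ζ ^ m) := (std_prim.isIntegral (Fact.out : p.Prime).pos).pow _
  have h1 : aeval (ζ ^ m) (P a - P b) = 0 := by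
    rw [map_sub, ← hS, ← hS, h, sub_self]
  have h2 := minpoly.isIntegrallyClosed_dvd hint h1
  rw [hmin] at h2
  obtain ⟨Q, hQ⟩ := h2
  have h3 : aeval (ζ ^ m') (P a - P b) = 0 := by
    rw [hQ, map_mul, minpoly.aeval, zero_mul]
  rw [map_sub, ← hS, ← hS] at h3
  exact sub_eq_zero.1 h3

/-- The multiplier corresponding to the conjugation by `m`. -/
noncomputable def uu (p : ℕ) [Fact p.Prime] {F : Type*} [Field F] [Fintype F]
    [Algebra (ZMod p) F] {s : ℕ} (hb : Function.Bijective (fun x : F => x ^ s)) (m : ℕ) : F :=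
  algebraMap (ZMod p) F m * (root hb (algebraMap (ZMod p) F m))⁻¹

theorem S_eq (hb : Function.Bijective (fun x : F => x ^ s)) {m : ℕ} (hm : m.Coprime p) (a : F) :
    S p s m a = W (can p F) s (uu p hb m * a) := by
  have hm0 : algebraMap (ZMod p) F m ≠ 0 := by
    rw [Ne, map_eq_zero, ZMod.natCast_eq_zero_iff]
    intro hd
    have h1 := Nat.dvd_gcd hd (dvd_refl p)
    rw [hm] at h1
    exact (Fact.out : p.Prime).one_lt.ne' (Nat.dvd_one.1 h1)
  have h1 : uu p hb m * a = (algebraMap (ZMod p) F m * a) * (root hb (algebraMap (ZMod p) F m))⁻¹ := by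
    unfold uu; ring
  rw [h1, ← sum_scaled hb hm0]
  unfold S
  refine Finset.sum_congr rfl fun x _ => ?_
  unfold can
  rw [lift_apply]
  congr 1
  rw [← smul_eq_mul, ← map_smul, Algebra.smul_def]
  congr 1
  ring

theorem galois_iff (hb : Function.Bijective (fun x : F => x ^ s)) {m : ℕ} (hm : m.Coprime p)
    (a b : F) : W (can p F) s (uu p hb m * a) = W (can p F) s (uu p hb m * b) ↔
      W (can p F) s a = W (can p F) s b := by
  rw [← S_eq hb hm, ← S_eq hb hm, ← S_one, ← S_one]
  constructor
  · intro h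
    exact galois_aux hm (Nat.coprime_one_left p) h
  · intro h
    exact galois_aux (Nat.coprime_one_left p) hm h

theorem sum_S (a : F) : ∑ m ∈ Finset.range p, S p s m a =
    p * ((univ.filter fun x : F => Algebra.trace (ZMod p) F (x ^ s - a * x) = 0).card : ℂ) := by
  unfold S
  rw [Finset.sum_comm]
  have h1 : ∀ x : F, ∑ m ∈ Finset.range p, ZMod.stdAddChar ((m : ZMod p) *
      Algebra.trace (ZMod p) F (x ^ s - a * x)) =
      if Algebra.trace (ZMod p) F (x ^ s - a * x) = 0 then (p : ℂ) else 0 := by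
    intro x
    have h3 := sum_psi_mul (ZMod.isPrimitive_stdAddChar p)
      (Algebra.trace (ZMod p) F (x ^ s - a * x))
    rw [ZMod.card] at h3
    rw [← h3]
    symm
    refine Finset.sum_bij (fun (j : ZMod p) _ => j.val) ?_ ?_ ?_ ?_
    · intro j _
      exact Finset.mem_range.2 (ZMod.val_lt j)
    · intro j _ j' _ h
      exact ZMod.val_injective p h
    · intro m hm
      exact ⟨(m : ZMod p), Finset.mem_univ _, ZMod.val_natCast_of_lt (Finset.mem_range.1 hm)⟩
    · intro j _
      rw [ZMod.natCast_zmod_val]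
  simp only [h1]
  rw [Finset.sum_ite, Finset.sum_const_zero, add_zero, Finset.sum_const, nsmul_eq_mul, mul_comm]

theorem S_zero (a : F) : S p s 0 a = Fintype.card F := by
  unfold S
  simp

theorem coprime_of_mem {m : ℕ} (h1 : m ∈ (Finset.range p).erase 0) : m.Coprime p := by
  rw [Finset.mem_erase, Finset.mem_range] at h1
  exact (Nat.coprime_of_lt_prime h1.1 h1.2 (Fact.out : p.Prime)).symm

/-- If all conjugates agree, the sum is determined by a counting function. -/
theorem all_conj {a : F} (h : ∀ m : ℕ, m.Coprime p → S p s m a = W (can p F) s a) :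
    ((p : ℂ) - 1) * W (can p F) s a =
      p * ((univ.filter fun x : F => Algebra.trace (ZMod p) F (x ^ s - a * x) = 0).card : ℂ) -
        Fintype.card F := by
  have h1 := sum_S (p := p) (s := s) a
  rw [← Finset.add_sum_erase _ _ (Finset.mem_range.2 (Fact.out : p.Prime).pos), S_zero,
    Finset.sum_congr rfl (fun m hm => h m (coprime_of_mem hm)), Finset.sum_const,
    Finset.card_erase_of_mem (Finset.mem_range.2 (Fact.out : p.Prime).pos), Finset.card_range,
    nsmul_eq_mul, Nat.cast_sub (Fact.out : p.Prime).pos] at h1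
  rw [← h1]
  push_cast
  ring

theorem isIntegral_can (p : ℕ) [Fact p.Prime] {F : Type*} [Field F] [Algebra (ZMod p) F] (x : F) :
    IsIntegral ℤ (can p F x) := by
  have h1 : (can p F x) ^ p = 1 := by
    rw [← AddChar.map_nsmul_eq_pow]
    have : p • x = 0 := by
      have hc : CharP F p := charP_of_injective_algebraMap (algebraMap (ZMod p) F).injective p
      rw [nsmul_eq_mul, CharP.cast_eq_zero, zero_mul]
    rw [this, AddChar.map_zero_eq_one]
  apply IsIntegral.of_pow (Fact.out : p.Prime).pos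
  rw [h1]
  exact isIntegral_one

theorem isIntegral_W (a : F) : IsIntegral ℤ (W (can p F) s a) :=
  IsIntegral.sum _ fun x _ => isIntegral_can p (x ^ s - a * x)

/-- Rational algebraic integers are integers. -/
theorem rat_int {z : ℂ} (hz : IsIntegral ℤ z) {m n : ℤ} (hm : m ≠ 0) (h : (m : ℂ) * z = n) :
    ∃ k : ℤ, z = k := by
  have hmC : (m : ℂ) ≠ 0 := by exact_mod_cast hm
  have h1 : z = algebraMap ℚ ℂ ((n : ℚ) / m) := by
    rw [map_div₀, map_intCast, map_intCast, eq_div_iff hmC]
    linear_combination h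
  rw [h1, isIntegral_algebraMap_iff (algebraMap ℚ ℂ).injective] at hz
  obtain ⟨k, hk⟩ := IsIntegrallyClosed.isIntegral_iff.1 hz
  refine ⟨k, ?_⟩
  rw [h1, ← hk]
  simp

/-- Integrality when all conjugates agree. -/
theorem int_of_conj {a : F} (h : ∀ m : ℕ, m.Coprime p → S p s m a = W (can p F) s a) :
    ∃ k : ℤ, W (can p F) s a = k := by
  have h1 := all_conj h
  have hp1 : ((p : ℤ) - 1) ≠ 0 := by
    have := (Fact.out : p.Prime).one_lt
    have h2 : (1 : ℤ) < p := by exact_mod_cast this
    linarith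
  refine rat_int (isIntegral_W a) hp1 (n := (p : ℤ) * ((univ.filter fun x : F =>
    Algebra.trace (ZMod p) F (x ^ s - a * x) = 0).card : ℤ) - Fintype.card F) ?_
  push_cast
  exact h1

end rat

end Run7.h803
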