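import Pool.Agent.Run7.h803.Mom

open Finset

namespace Run7.h803

set_option linter.unusedSectionVars false

theorem exists_factor {p : ℕ} (hp : p.Prime) {A : ℤ} (hA : A ≠ 0) :
    ∃ (a : ℕ) (A' : ℤ), A = (p : ℤ) ^ a * A' ∧ ¬ (p : ℤ) ∣ A' := by
  have hf : FiniteMultiplicity (p : ℤ) A := by
    rw [Int.finiteMultiplicity_iff]
    refine ⟨?_, hA⟩
    simpa using hp.ne_one
  exact ⟨_, hf.exists_eq_pow_mul_and_not_dvd⟩

theorem val_sum {p n : ℕ} (hp : p.Prime) {A B C X : ℤ} (hn : 1 ≤ n)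
    (hA : ¬ (p : ℤ) ^ n ∣ A) (hB : ¬ (p : ℤ) ^ n ∣ B) (hC : ¬ (p : ℤ) ^ n ∣ C)
    (heq : A * B * C * ((p : ℤ) ^ n - 1) =
      (p : ℤ) ^ n * (p : ℤ) ^ n * X + (A * B + A * C + B * C) * (p : ℤ) ^ n) :
    (p : ℤ) ^ (n + 1) ∣ A * B ∧ (p : ℤ) ^ (n + 1) ∣ A * C ∧ (p : ℤ) ^ (n + 1) ∣ B * C := by
  have hA0 : A ≠ 0 := by rintro rfl; exact hA (dvd_zero _)
  have hB0 : B ≠ 0 := by rintro rfl; exact hB (dvd_zero _)
  have hC0 : C ≠ 0 := by rintro rfl; exact hC (dvd_zero _)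
  obtain ⟨a, A', rfl, hA'⟩ := exists_factor hp hA0
  obtain ⟨b, B', rfl, hB'⟩ := exists_factor hp hB0
  obtain ⟨c, C', rfl, hC'⟩ := exists_factor hp hC0
  have han : a < n := by
    by_contra h
    exact hA (Dvd.dvd.mul_right (pow_dvd_pow _ (not_lt.1 h)) _)
  have hbn : b < n := by
    by_contra h
    exact hB (Dvd.dvd.mul_right (pow_dvd_pow _ (not_lt.1 h)) _)
  have hcn : c < n := by
    by_contra h
    exact hC (Dvd.dvd.mul_right (pow_dvd_pow _ (not_lt.1 h)) _)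
  have hpZ : Prime (p : ℤ) := Nat.prime_iff_prime_int.1 hp
  have hp0 : (p : ℤ) ≠ 0 := hpZ.ne_zero
  have key : 2 * n ≤ a + b + c := by
    by_contra hlt
    push Not at hlt
    have d1 : (p : ℤ) ^ (a + b + c + 1) ∣ (p : ℤ) ^ n * (p : ℤ) ^ n * X := by
      rw [← pow_add]
      exact Dvd.dvd.mul_right (pow_dvd_pow _ (by omega)) _
    have d2 : (p : ℤ) ^ (a + b + c + 1) ∣ ((p : ℤ) ^ a * A' * ((p : ℤ) ^ b * B')) * (p : ℤ) ^ n := by
      have : ((p : ℤ) ^ a * A' * ((p : ℤ) ^ b * B')) * (p : ℤ) ^ n =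
        (p : ℤ) ^ (a + b + n) * (A' * B') := by ring
      rw [this]
      exact Dvd.dvd.mul_right (pow_dvd_pow _ (by omega)) _
    have d3 : (p : ℤ) ^ (a + b + c + 1) ∣ ((p : ℤ) ^ a * A' * ((p : ℤ) ^ c * C')) * (p : ℤ) ^ n := by
      have : ((p : ℤ) ^ a * A' * ((p : ℤ) ^ c * C')) * (p : ℤ) ^ n =
        (p : ℤ) ^ (a + c + n) * (A' * C') := by ring
      rw [this]
      exact Dvd.dvd.mul_right (pow_dvd_pow _ (by omega)) _
    have d4 : (p : ℤ) ^ (a + b + c + 1) ∣ ((p : ℤ) ^ b * B' * ((p : ℤ) ^ c * C')) * (p : ℤ) ^ n := by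
      have : ((p : ℤ) ^ b * B' * ((p : ℤ) ^ c * C')) * (p : ℤ) ^ n =
        (p : ℤ) ^ (b + c + n) * (B' * C') := by ring
      rw [this]
      exact Dvd.dvd.mul_right (pow_dvd_pow _ (by omega)) _
    have d5 : (p : ℤ) ^ (a + b + c + 1) ∣
        (p : ℤ) ^ (a + b + c) * (A' * B' * C' * ((p : ℤ) ^ n - 1)) := by
      have h1 : (p : ℤ) ^ (a + b + c) * (A' * B' * C' * ((p : ℤ) ^ n - 1)) =
          (p : ℤ) ^ a * A' * ((p : ℤ) ^ b * B') * ((p : ℤ) ^ c * C') * ((p : ℤ) ^ n - 1) := by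
        ring
      rw [h1, heq, add_mul, add_mul]
      exact dvd_add d1 (dvd_add (dvd_add d2 d3) d4)
    rw [pow_succ] at d5
    have d6 : (p : ℤ) ∣ A' * B' * C' * ((p : ℤ) ^ n - 1) :=
      (mul_dvd_mul_iff_left (pow_ne_zero _ hp0)).1 d5
    rcases hpZ.dvd_or_dvd d6 with h | h
    · rcases hpZ.dvd_or_dvd h with h | h
      · rcases hpZ.dvd_or_dvd h with h | h
        · exact hA' h
        · exact hB' h
      · exact hC' h
    · have h1 : (p : ℤ) ∣ (p : ℤ) ^ n := dvd_pow_self _ (by omega)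
      have h2 : (p : ℤ) ∣ 1 := by
        have := dvd_sub h1 h
        simpa using this
      exact hpZ.not_isUnit (isUnit_of_dvd_one h2)
  refine ⟨?_, ?_, ?_⟩
  · have : (p : ℤ) ^ a * A' * ((p : ℤ) ^ b * B') = (p : ℤ) ^ (a + b) * (A' * B') := by ring
    rw [this]
    exact Dvd.dvd.mul_right (pow_dvd_pow _ (by omega)) _
  · have : (p : ℤ) ^ a * A' * ((p : ℤ) ^ c * C') = (p : ℤ) ^ (a + c) * (A' * C') := by ring
    rw [this]
    exact Dvd.dvd.mul_right (pow_dvd_pow _ (by omega)) _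
  · have : (p : ℤ) ^ b * B' * ((p : ℤ) ^ c * C') = (p : ℤ) ^ (b + c) * (B' * C') := by ring
    rw [this]
    exact Dvd.dvd.mul_right (pow_dvd_pow _ (by omega)) _

theorem sign_ineq {p q u v : ℤ} (hp : 3 ≤ p) (hq : p ≤ q) (hu : 0 < u) (hv : p ≤ v)
    (huv : p * q ≤ u * v) (h : 0 < q ^ 2 - (v - u) * q - u * v * (q - 1)) : False := by
  have h1 : 0 ≤ (v - p) * u := mul_nonneg (by linarith) hu.le
  have h2 : 0 ≤ p * (q - 1) - q := by nlinarith
  have h3 : 0 ≤ (u * v - p * q) * (p * (q - 1) - q) := mul_nonneg (by linarith) h2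
  have h4 : 0 ≤ q * ((v - p) * u) := mul_nonneg (by linarith) h1
  have h5 : 0 ≤ p * (v * q) := by
    have : 0 ≤ v := by linarith
    have : 0 ≤ q := by linarith
    positivity
  have h6 : 0 ≤ (p * q) * ((p - 2) * q - p) := by
    apply mul_nonneg
    · nlinarith
    · nlinarith
  have h7 : 0 < p * (q ^ 2 - (v - u) * q - u * v * (q - 1)) := mul_pos (by linarith) h
  nlinarith

namespace IsWeil

variable {F : Type*} [Field F] [Fintype F] [DecidableEq F] {w : F → ℤ} {c : F → F}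

theorem quad_sum (h : IsWeil w c) (Y Z : ℤ) :
    ∑ a ∈ univ.erase (0 : F), (w a - Y) * (w a - Z) =
      (Fintype.card F : ℤ) ^ 2 - (Y + Z) * Fintype.card F + Y * Z * (Fintype.card F - 1) := by
  have h1 : ∑ a, (w a - Y) * (w a - Z) =
      (Fintype.card F : ℤ) ^ 2 - (Y + Z) * Fintype.card F + Y * Z * Fintype.card F := by
    have : ∀ a, (w a - Y) * (w a - Z) = w a ^ 2 - (Y + Z) * w a + Y * Z := by
      intro a; ring
    simp only [this]
    rw [Finset.sum_add_distrib, Finset.sum_sub_distrib, ← Finset.mul_sum, h.sum, h.sum_sq]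
    simp
    ring
  rw [← Finset.add_sum_erase _ _ (Finset.mem_univ (0 : F)), h.zero] at h1
  linarith

theorem cubic_sum (h : IsWeil w c) (X Y Z : ℤ) :
    ∑ a ∈ univ.erase (0 : F), (w a - X) * (w a - Y) * (w a - Z) =
      (Fintype.card F : ℤ) ^ 2 * m c 1 - (X + Y + Z) * (Fintype.card F : ℤ) ^ 2 +
      (X * Y + X * Z + Y * Z) * (Fintype.card F : ℤ)
        - X * Y * Z * ((Fintype.card F : ℤ) - 1) := by
  have h1 : ∑ a, (w a - X) * (w a - Y) * (w a - Z) =
      (Fintype.card F : ℤ) ^ 2 * m c 1 - (X + Y + Z) * (Fintype.card F : ℤ) ^ 2 +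
      (X * Y + X * Z + Y * Z) * (Fintype.card F : ℤ)
        - X * Y * Z * (Fintype.card F : ℤ) := by
    have : ∀ a, (w a - X) * (w a - Y) * (w a - Z) = w a ^ 3 - (X + Y + Z) * w a ^ 2
        + (X * Y + X * Z + Y * Z) * w a - X * Y * Z := by
      intro a; ring
    simp only [this]
    rw [Finset.sum_sub_distrib, Finset.sum_add_distrib, Finset.sum_sub_distrib, ← Finset.mul_sum,
      ← Finset.mul_sum, h.sum, h.sum_sq, h.sum_cube]
    simp
    ring
  rw [← Finset.add_sum_erase _ _ (Finset.mem_univ (0 : F)), h.zero] at h1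
  linarith

/-- Three integer values of a Weil spectrum: one of them is zero, and they have both signs. -/
theorem three_form (h : IsWeil w c) {p n : ℕ} (hp : p.Prime) (hp3 : 3 ≤ p) (hn : 1 ≤ n)
    (hq : Fintype.card F = p ^ n) (hdiv : ∀ a, (p : ℤ) ∣ w a) {x1 x2 x3 : ℤ} (h12 : x1 < x2)
    (h23 : x2 < x3) (hall : ∀ a, a ≠ 0 → w a = x1 ∨ w a = x2 ∨ w a = x3)
    {a1 a2 a3 : F} (ha1 : a1 ≠ 0) (ha2 : a2 ≠ 0) (ha3 : a3 ≠ 0)
    (e1 : w a1 = x1) (e2 : w a2 = x2) (e3 : w a3 = x3) : x1 < 0 ∧ x2 = 0 ∧ 0 < x3 := by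
  have hqZ : (Fintype.card F : ℤ) = (p : ℤ) ^ n := by rw [hq]; push_cast; rfl
  have hx1 : x1 < 0 := by
    by_contra hx
    push Not at hx
    have hnn : ∀ a, 0 ≤ w a := by
      intro a
      by_cases ha : a = 0
      · rw [ha, h.zero]
      · rcases hall a ha with h' | h' | h' <;> rw [h'] <;> linarith
    have : a2 = a3 := h.nonneg_unique hnn (by rw [e2]; linarith) (by rw [e3]; linarith)
    rw [this] at e2
    linarith
  have hx3 : 0 < x3 := by
    by_contra hx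
    push Not at hx
    have hnn : ∀ a, w a ≤ 0 := by
      intro a
      by_cases ha : a = 0
      · rw [ha, h.zero]
      · rcases hall a ha with h' | h' | h' <;> rw [h'] <;> linarith
    have h1 : ∑ a, w a ≤ 0 := Finset.sum_nonpos fun a _ => hnn a
    rw [h.sum, hqZ] at h1
    have : 0 < (p : ℤ) ^ n := pow_pos (by exact_mod_cast hp.pos) _
    linarith
  refine ⟨hx1, ?_, hx3⟩
  by_contra hx2
  have hp1 : (3 : ℤ) ≤ p := by exact_mod_cast hp3
  have hpq : (p : ℤ) ≤ (p : ℤ) ^ n := by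
    calc (p : ℤ) = (p : ℤ) ^ 1 := (pow_one _).symm
      _ ≤ (p : ℤ) ^ n := pow_le_pow_right₀ (by linarith) hn
  have nd : ∀ a b : F, a ≠ b → w a ≠ 0 → w b ≠ 0 → ¬ (p : ℤ) ^ n ∣ w a := by
    intro a b hab ha hb hd
    have h1 := h.abs_lt hab hb
    rw [hqZ] at h1
    have h2 := Int.le_of_dvd (abs_pos.2 ha) ((dvd_abs _ _).2 hd)
    linarith
  have h12' : a1 ≠ a2 := by rintro rfl; linarith
  have h23' : a2 ≠ a3 := by rintro rfl; linarith
  have n1 : ¬ (p : ℤ) ^ n ∣ x1 := by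
    have := nd a1 a2 h12' (by rw [e1]; linarith) (by rw [e2]; exact hx2)
    rwa [e1] at this
  have n2 : ¬ (p : ℤ) ^ n ∣ x2 := by
    have := nd a2 a3 h23' (by rw [e2]; exact hx2) (by rw [e3]; linarith)
    rwa [e2] at this
  have n3 : ¬ (p : ℤ) ^ n ∣ x3 := by
    have := nd a3 a2 h23'.symm (by rw [e3]; linarith) (by rw [e2]; exact hx2)
    rwa [e3] at this
  have hcub := h.cubic_sum x1 x2 x3
  rw [Finset.sum_eq_zero] at hcub
  swap
  · intro a ha
    have ha0 := (Finset.mem_erase.1 ha).1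
    rcases hall a ha0 with h' | h' | h' <;> rw [h'] <;> ring
  rw [hqZ] at hcub
  obtain ⟨d12, d13, d23⟩ := val_sum hp hn n1 n2 n3 (X := m c 1 - (x1 + x2 + x3))
    (by linear_combination hcub)
  rcases lt_or_gt_of_ne hx2 with hneg | hpos
  · -- use x1
    have hs := h.quad_sum x2 x3
    have hpos' : 0 < ∑ a ∈ univ.erase (0 : F), (w a - x2) * (w a - x3) := by
      refine Finset.sum_pos' ?_ ⟨a1, Finset.mem_erase.2 ⟨ha1, Finset.mem_univ _⟩, ?_⟩
      · intro a ha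
        have ha0 := (Finset.mem_erase.1 ha).1
        rcases hall a ha0 with h' | h' | h' <;> rw [h']
        · nlinarith
        · simp
        · simp
      · rw [e1]; nlinarith
    rw [hs, hqZ] at hpos'
    have hv : (p : ℤ) ≤ x3 := Int.le_of_dvd hx3 (by rw [← e3]; exact hdiv a3)
    have huv : (p : ℤ) * (p : ℤ) ^ n ≤ (-x2) * x3 := by
      have : (p : ℤ) ^ (n + 1) ∣ (-x2) * x3 := by
        rw [neg_mul]
        exact (dvd_neg).2 d23
      have h1 := Int.le_of_dvd (mul_pos (by linarith) hx3) this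
      calc (p : ℤ) * (p : ℤ) ^ n = (p : ℤ) ^ (n + 1) := by ring
        _ ≤ _ := h1
    refine sign_ineq hp1 hpq (u := -x2) (v := x3) (by linarith) hv huv ?_
    nlinarith
  · have hs := h.quad_sum x1 x2
    have hpos' : 0 < ∑ a ∈ univ.erase (0 : F), (w a - x1) * (w a - x2) := by
      refine Finset.sum_pos' ?_ ⟨a3, Finset.mem_erase.2 ⟨ha3, Finset.mem_univ _⟩, ?_⟩
      · intro a ha
        have ha0 := (Finset.mem_erase.1 ha).1
        rcases hall a ha0 with h' | h' | h' <;> rw [h']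
        · simp
        · simp
        · nlinarith
      · rw [e3]; nlinarith
    rw [hs, hqZ] at hpos'
    have hv : (p : ℤ) ≤ x2 := Int.le_of_dvd hpos (by rw [← e2]; exact hdiv a2)
    have huv : (p : ℤ) * (p : ℤ) ^ n ≤ (-x1) * x2 := by
      have : (p : ℤ) ^ (n + 1) ∣ (-x1) * x2 := by
        rw [neg_mul]
        exact (dvd_neg).2 d12
      have h1 := Int.le_of_dvd (mul_pos (by linarith) hpos) this
      calc (p : ℤ) * (p : ℤ) ^ n = (p : ℤ) ^ (n + 1) := by ring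
        _ ≤ _ := h1
    refine sign_ineq hp1 hpq (u := -x1) (v := x2) (by linarith) hv huv ?_
    nlinarith

end IsWeil

end Run7.h803
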