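import Pool.Agent.Run7.h803.Rat
import Pool.Agent.Run7.h803.Sing

open Finset

namespace Run7.h803

set_option linter.unusedSectionVars false

/-- The arithmetic behind the exclusion of a quadratic orbit of values. -/
theorem arith_swap {p n : ℕ} (hp : p.Prime) (hp5 : 5 ≤ p) (hn : 1 ≤ n) {N M k C E : ℤ}
    (hN : 1 ≤ N) (hM : 1 ≤ M) (h1 : 2 * N + M = (p : ℤ) ^ n - 1)
    (h2 : N * k = (p : ℤ) ^ n - M * C) (h3 : N * k ^ 2 = ((p : ℤ) ^ n) ^ 2 - 2 * M * C ^ 2)
    (h4 : N * E = ((p : ℤ) ^ n) ^ 2) (hC : C ≠ 0) : False := by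
  have hpZ : Prime (p : ℤ) := Nat.prime_iff_prime_int.1 hp
  have hp5' : (5 : ℤ) ≤ p := by exact_mod_cast hp5
  set q : ℤ := (p : ℤ) ^ n with hq
  have hqp : (p : ℤ) ∣ q := dvd_pow_self _ (by omega)
  have hq5 : (5 : ℤ) ≤ q := by
    calc (5 : ℤ) ≤ p := hp5'
      _ = (p : ℤ) ^ 1 := (pow_one _).symm
      _ ≤ _ := pow_le_pow_right₀ (by linarith) hn
  have K1 : M * (q - 1) * C ^ 2 - 2 * q * M * C - (N - 1) * q ^ 2 = 0 := by
    have h5 : (q - M * C) ^ 2 = N * (q ^ 2 - 2 * M * C ^ 2) := by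
      rw [← h2, ← h3]; ring
    rw [← h1]
    linear_combination h5
  have hp1 : ¬ (p : ℤ) ∣ q - 1 := by
    intro hd
    have := dvd_sub hqp hd
    simp only [sub_sub_cancel] at this
    exact hpZ.not_isUnit (isUnit_of_dvd_one this)
  by_cases hpN : (p : ℤ) ∣ N
  · have hpM : ¬ (p : ℤ) ∣ M := by
      intro hd
      have h5 : (p : ℤ) ∣ 1 := by
        have : (1 : ℤ) = q - 2 * N - M := by linarith
        rw [this]
        exact dvd_sub (dvd_sub hqp (Dvd.dvd.mul_left hpN 2)) hd
      exact hpZ.not_isUnit (isUnit_of_dvd_one h5)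
    obtain ⟨c, C', hCf, pC⟩ := exists_factor hp hC
    rcases le_or_gt n c with hcn | hcn
    · have h5 : q ∣ C := by
        rw [hCf]
        exact Dvd.dvd.mul_right (pow_dvd_pow _ hcn) _
      have h6 : q ^ 2 ≤ C ^ 2 := by
        have h7 := Int.le_of_dvd (abs_pos.2 hC) ((dvd_abs _ _).2 h5)
        rw [← sq_abs C]
        nlinarith
      nlinarith [sq_nonneg k, mul_nonneg (by linarith : (0 : ℤ) ≤ N) (sq_nonneg k)]
    · obtain ⟨d, rfl⟩ := Nat.exists_eq_add_of_lt hcn
      have hp0 : (p : ℤ) ≠ 0 := hpZ.ne_zero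
      have hqd : q = (p : ℤ) ^ c * (p : ℤ) ^ (d + 1) := by rw [hq]; ring
      have h5 : (p : ℤ) ^ (2 * c) * (M * (q - 1) * C' ^ 2) =
          (p : ℤ) ^ (2 * c) * ((p : ℤ) * ((p : ℤ) ^ d *
            (2 * M * C' + (N - 1) * (p : ℤ) ^ (d + 1)))) := by
        have e1 : (p : ℤ) ^ (2 * c) * (M * (q - 1) * C' ^ 2) = M * (q - 1) * C ^ 2 := by
          rw [hCf]; ring
        have e2 : (p : ℤ) ^ (2 * c) * ((p : ℤ) * ((p : ℤ) ^ d *
            (2 * M * C' + (N - 1) * (p : ℤ) ^ (d + 1)))) =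
            2 * q * M * C + (N - 1) * q ^ 2 := by
          rw [hCf, hqd]; ring
        rw [e1, e2]
        linear_combination K1
      have h6 := mul_left_cancel₀ (pow_ne_zero _ hp0) h5
      have h7 : (p : ℤ) ∣ M * (q - 1) * C' ^ 2 := ⟨_, h6⟩
      rcases hpZ.dvd_or_dvd h7 with h8 | h8
      · rcases hpZ.dvd_or_dvd h8 with h9 | h9
        · exact hpM h9
        · exact hp1 h9
      · exact pC (hpZ.dvd_of_dvd_pow h8)
  · have h5 : IsCoprime N (((p : ℤ) ^ n) ^ 2) :=
      (((Prime.coprime_iff_not_dvd hpZ).2 hpN).symm.pow_right).pow_right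
    have h6 : N ∣ ((p : ℤ) ^ n) ^ 2 := ⟨E, h4.symm⟩
    have h7 : IsUnit N := h5.isUnit_of_dvd' (dvd_refl _) h6
    have h8 : N = 1 := by
      rcases Int.isUnit_iff.1 h7 with h | h
      · exact h
      · linarith
    subst h8
    have h9 : M * C * ((q - 1) * C - 2 * q) = 0 := by linear_combination K1
    rcases mul_eq_zero.1 h9 with h10 | h10
    · rcases mul_eq_zero.1 h10 with h11 | h11
      · linarith
      · exact hC h11
    · rcases le_or_gt C 2 with hC2 | hC2
      · nlinarith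
      · have : 3 ≤ C := hC2
        nlinarith

theorem sum_units {F : Type*} [Field F] [Fintype F] [DecidableEq F] {M : Type*} [AddCommMonoid M]
    (f : F → M) : ∑ a : Fˣ, f a = ∑ x ∈ univ.erase (0 : F), f x := by
  refine Finset.sum_bij (fun (a : Fˣ) _ => (a : F)) ?_ ?_ ?_ ?_
  · intro a _
    exact Finset.mem_erase.2 ⟨a.ne_zero, Finset.mem_univ _⟩
  · intro a _ a' _ h
    exact Units.ext h
  · intro a ha
    exact ⟨Units.mk0 a (Finset.mem_erase.1 ha).1, Finset.mem_univ _, rfl⟩
  · intro a _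
    rfl

theorem sum_three (f : Fin 3 → ℂ) {x y z : Fin 3} (hxy : x ≠ y) (hxz : x ≠ z) (hyz : y ≠ z) :
    ∑ k, f k = f x + f y + f z := by
  have h : (univ : Finset (Fin 3)) = {x, y, z} := by
    revert x y z; decide
  rw [h, Finset.sum_insert, Finset.sum_insert, Finset.sum_singleton, add_assoc]
  · simpa using hyz
  · simp only [Finset.mem_insert, Finset.mem_singleton]; tauto

theorem cover_three {x y z : Fin 3} (hxy : x ≠ y) (hxz : x ≠ z) (hyz : y ≠ z) (k : Fin 3) :
    k = x ∨ k = y ∨ k = z := by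
  revert k x y z; decide

theorem perm_three (π : Equiv.Perm (Fin 3)) : π = 1 ∨
    (∃ x y z : Fin 3, x ≠ y ∧ x ≠ z ∧ y ≠ z ∧ π x = y ∧ π y = z ∧ π z = x) ∨
    (∃ x y z : Fin 3, x ≠ y ∧ x ≠ z ∧ y ≠ z ∧ π x = y ∧ π y = x ∧ π z = z) := by
  revert π; decide

section

variable {p : ℕ} [Fact p.Prime] {F : Type*} [Field F] [Fintype F] [DecidableEq F]
  [Algebra (ZMod p) F] {s : ℕ}

theorem units_sum_W (hb : Function.Bijective (fun x : F => x ^ s)) :
    ∑ a : Fˣ, W (can p F) s (a : F) = Fintype.card F := by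
  rw [sum_units (fun x => W (can p F) s x), ← sum_W (can_primitive (p := p) F) hb,
    ← Finset.add_sum_erase _ _ (Finset.mem_univ (0 : F)), W_zero (can_primitive F) hb, zero_add]

theorem units_corr (hb : Function.Bijective (fun x : F => x ^ s)) (hs : Odd s) (u : F) :
    ∑ a : Fˣ, W (can p F) s (a : F) * W (can p F) s (u * a) =
      if u = 1 then (Fintype.card F : ℂ) ^ 2 else 0 := by
  rw [sum_units (fun x => W (can p F) s x * W (can p F) s (u * x)),
    ← corr_W (can_primitive (p := p) F) hb hs u,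
    ← Finset.add_sum_erase _ _ (Finset.mem_univ (0 : F)), W_zero (can_primitive F) hb, zero_mul,
    zero_add]

/-- Three values: the multipliers of the Galois action are all equal to one. -/
theorem uu_eq_one (hp5 : 5 ≤ p) {n : ℕ} (hn : 1 ≤ n) (hcard : Fintype.card F = p ^ n)
    (hb : Function.Bijective (fun x : F => x ^ s)) (hs : Odd s)
    (i : Fˣ → Fin 3) (hi : Function.Surjective i) (v : Fin 3 → ℂ) (hv : Function.Injective v)
    (hiv : ∀ a : Fˣ, W (can p F) s (a : F) = v (i a)) {m : ℕ} (hm : m.Coprime p) :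
    uu p hb m = 1 := by
  have hq0 : (Fintype.card F : ℂ) ≠ 0 := by
    have : Fintype.card F ≠ 0 := Fintype.card_ne_zero
    exact_mod_cast this
  have hp : p.Prime := Fact.out
  have hq5 : 5 ≤ Fintype.card F := by
    rw [hcard]
    calc 5 ≤ p := hp5
      _ = p ^ 1 := (pow_one p).symm
      _ ≤ p ^ n := Nat.pow_le_pow_right hp.pos hn
  -- the multipliers are nonzero
  have hu0 : ∀ m : ℕ, m.Coprime p → uu p hb m ≠ 0 := by
    intro m hm
    have hm0 : algebraMap (ZMod p) F m ≠ 0 := by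
      rw [Ne, map_eq_zero, ZMod.natCast_eq_zero_iff]
      intro hd
      have h1 := Nat.dvd_gcd hd (dvd_refl p)
      rw [hm] at h1
      exact hp.one_lt.ne' (Nat.dvd_one.1 h1)
    exact mul_ne_zero hm0 (inv_ne_zero (root_ne_zero hb hm0))
  -- the permutation
  have hperm : ∀ m : ℕ, ∀ hm : m.Coprime p, ∃ π : Equiv.Perm (Fin 3), ∀ a : Fˣ,
      i (Units.mk0 _ (hu0 m hm) * a) = π (i a) := by
    intro m hm
    set U : Fˣ := Units.mk0 _ (hu0 m hm) with hU
    have hiff : ∀ a b : Fˣ, i (U * a) = i (U * b) ↔ i a = i b := by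
      intro a b
      have h1 := galois_iff (p := p) hb hm (a : F) (b : F)
      rw [hiv a, hiv b] at h1
      have h2 : uu p hb m * (a : F) = ((U * a : Fˣ) : F) := by simp [hU]
      have h3 : uu p hb m * (b : F) = ((U * b : Fˣ) : F) := by simp [hU]
      rw [h2, h3, hiv, hiv] at h1
      constructor
      · intro h
        exact hv (h1.1 (by rw [h]))
      · intro h
        exact hv (h1.2 (by rw [h]))
    choose rep hrep using hi
    have hinj : Function.Injective (fun k => i (U * rep k)) := by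
      intro k l h
      have := (hiff _ _).1 h
      rwa [hrep, hrep] at this
    refine ⟨Equiv.ofBijective _ (Finite.injective_iff_bijective.1 hinj), ?_⟩
    intro a
    rw [Equiv.ofBijective_apply]
    rw [hiff]
    exact (hrep _).symm
  -- counts
  set N : Fin 3 → ℕ := fun k => (univ.filter fun a : Fˣ => i a = k).card with hN
  have hNpos : ∀ k, 1 ≤ N k := by
    intro k
    obtain ⟨a, ha⟩ := hi k
    exact Finset.card_pos.2 ⟨a, Finset.mem_filter.2 ⟨Finset.mem_univ _, ha⟩⟩
  have hNinv : ∀ (U : Fˣ) (π : Equiv.Perm (Fin 3)), (∀ a, i (U * a) = π (i a)) →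
      ∀ k, N (π k) = N k := by
    intro U π hπ k
    symm
    refine Finset.card_bij (fun a _ => U * a) ?_ ?_ ?_
    · intro a ha
      rw [Finset.mem_filter] at ha ⊢
      exact ⟨Finset.mem_univ _, by rw [hπ, ha.2]⟩
    · intro a _ b _ h
      exact mul_left_cancel h
    · intro b hb'
      rw [Finset.mem_filter] at hb'
      refine ⟨U⁻¹ * b, Finset.mem_filter.2 ⟨Finset.mem_univ _, ?_⟩, by simp⟩
      apply π.injective
      rw [← hπ]
      simpa using hb'.2
  have fib : ∀ f : Fin 3 → ℂ, ∑ a : Fˣ, f (i a) = ∑ k, (N k : ℂ) * f k := by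
    intro f
    rw [← Finset.sum_fiberwise univ i (fun a => f (i a))]
    refine Finset.sum_congr rfl fun k _ => ?_
    rw [← nsmul_eq_mul, ← Finset.sum_const]
    refine Finset.sum_congr rfl fun a ha => ?_
    rw [(Finset.mem_filter.1 ha).2]
  have hsum1 : ∑ k, (N k : ℂ) * v k = Fintype.card F := by
    rw [← fib, ← units_sum_W (p := p) hb]
    exact Finset.sum_congr rfl fun a _ => (hiv a).symm
  have hcorr : ∀ (U : Fˣ) (π : Equiv.Perm (Fin 3)), (∀ a, i (U * a) = π (i a)) →
      ∑ k, (N k : ℂ) * (v k * v (π k)) =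
        if (U : F) = 1 then (Fintype.card F : ℂ) ^ 2 else 0 := by
    intro U π hπ
    rw [← fib (fun k => v k * v (π k)), ← units_corr (p := p) hb hs (U : F)]
    refine Finset.sum_congr rfl fun a _ => ?_
    rw [hiv a]
    have : (U : F) * (a : F) = ((U * a : Fˣ) : F) := by simp
    rw [this, hiv, hπ]
  have hsum2 : ∑ k, (N k : ℂ) * (v k * v k) = (Fintype.card F : ℂ) ^ 2 := by
    have := hcorr 1 1 (by simp)
    simpa using this
  have htot : ∑ k, (N k : ℂ) = (Fintype.card F : ℂ) - 1 := by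
    have h1 := fib (fun _ => 1)
    simp only [Finset.sum_const, nsmul_eq_mul, mul_one, Finset.card_univ] at h1
    rw [← h1, Fintype.card_units, Nat.cast_sub Fintype.card_pos]
    simp
  have hvint : ∀ k, IsIntegral ℤ (v k) := by
    intro k
    obtain ⟨a, rfl⟩ := hi k
    rw [← hiv]
    exact isIntegral_W _
  have hpi1 : ∀ (U : Fˣ) (π : Equiv.Perm (Fin 3)), (∀ a, i (U * a) = π (i a)) → π = 1 →
      (U : F) = 1 := by
    intro U π hπ h1
    by_contra hne
    have h3 := hcorr U π hπ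
    rw [if_neg hne, h1] at h3
    simp only [Equiv.Perm.coe_one, id] at h3
    rw [hsum2] at h3
    exact pow_ne_zero 2 hq0 h3
  -- no three-cycles
  have hno3 : ∀ (U : Fˣ) (π : Equiv.Perm (Fin 3)), (∀ a, i (U * a) = π (i a)) →
      ¬ ∃ x y z : Fin 3, x ≠ y ∧ x ≠ z ∧ y ≠ z ∧ π x = y ∧ π y = z ∧ π z = x := by
    rintro U π hπ ⟨x, y, z, hxy, hxz, hyz, e1, e2, e3⟩
    have n1 := hNinv U π hπ x
    have n2 := hNinv U π hπ y
    rw [e1] at n1
    rw [e2] at n2
    rw [sum_three _ hxy hxz hyz, n2, n1] at hsum1 htot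
    have hNx := hNpos x
    have hS : IsIntegral ℤ (v x + v y + v z) := ((hvint x).add (hvint y)).add (hvint z)
    have h1 : (((N x : ℤ)) : ℂ) * (v x + v y + v z) = ((Fintype.card F : ℤ) : ℂ) := by
      push_cast
      linear_combination hsum1
    obtain ⟨k, hk⟩ := rat_int hS (by positivity) h1
    rw [hk] at h1
    have h3 : (N x : ℤ) * k = Fintype.card F := by exact_mod_cast h1
    have h4 : (3 : ℤ) * N x = Fintype.card F - 1 := by
      have h5 : (3 : ℂ) * N x = Fintype.card F - 1 := by linear_combination htot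
      exact_mod_cast h5
    have h5 : (N x : ℤ) ∣ 1 := by
      have h6 : (N x : ℤ) ∣ Fintype.card F := ⟨k, h3.symm⟩
      have h7 : (N x : ℤ) ∣ Fintype.card F - 1 := ⟨3, by rw [← h4]; ring⟩
      have := dvd_sub h6 h7
      simpa using this
    have h6 := Int.le_of_dvd one_pos h5
    have h7 : (5 : ℤ) ≤ Fintype.card F := by exact_mod_cast hq5
    linarith
  have hpm : ∀ m : ℕ, m.Coprime p → uu p hb m = 1 ∨ uu p hb m = -1 := by
    intro m hm
    obtain ⟨π, hπ⟩ := hperm m hm
    rcases perm_three π with h1 | h1 | h1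
    · left
      exact hpi1 _ π hπ h1
    · exact absurd h1 (hno3 _ π hπ)
    · obtain ⟨x, y, z, hxy, hxz, hyz, e1, e2, e3⟩ := h1
      have hππ : ∀ k, π (π k) = k := by
        intro k
        have := cover_three hxy hxz hyz k
        rcases this with rfl | rfl | rfl
        · rw [e1, e2]
        · rw [e2, e1]
        · rw [e3, e3]
      have h3 := hpi1 (Units.mk0 _ (hu0 m hm) * Units.mk0 _ (hu0 m hm)) 1 (by
        intro a
        rw [mul_assoc, hπ, hπ, hππ]
        rfl) rfl
      have h4 : uu p hb m * uu p hb m = 1 := by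
        simpa using h3
      exact mul_self_eq_one_iff.1 h4
  rcases hpm m hm with h1 | h1
  · exact h1
  exfalso
  have hF2 : (2 : F) ≠ 0 := by
    have h3 : ((2 : ℕ) : F) ≠ 0 := by
      have hc : CharP F p := charP_of_injective_algebraMap (algebraMap (ZMod p) F).injective p
      rw [Ne, CharP.cast_eq_zero_iff F p]
      intro hd
      have := Nat.le_of_dvd two_pos hd
      omega
    exact_mod_cast h3
  have hne1 : (-1 : F) ≠ 1 := by
    intro h
    apply hF2
    linear_combination -h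
  obtain ⟨π, hπ⟩ := hperm m hm
  have hswap : ∃ x y z : Fin 3, x ≠ y ∧ x ≠ z ∧ y ≠ z ∧ π x = y ∧ π y = x ∧ π z = z := by
    rcases perm_three π with h3 | h3 | h3
    · exfalso
      have := hpi1 _ π hπ h3
      rw [Units.val_mk0, h1] at this
      exact hne1 this
    · exact absurd h3 (hno3 _ π hπ)
    · exact h3
  obtain ⟨x, y, z, hxy, hxz, hyz, e1, e2, e3⟩ := hswap
  -- the fixed value is an integer
  have hCint : ∃ C : ℤ, v z = C := by
    obtain ⟨a, ha⟩ := hi z
    have h3 : ∀ m' : ℕ, m'.Coprime p → S p s m' (a : F) = W (can p F) s (a : F) := by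
      intro m' hm'
      rw [S_eq hb hm']
      rcases hpm m' hm' with h4 | h4
      · rw [h4, one_mul]
      · have h5 : uu p hb m' * (a : F) = ((Units.mk0 _ (hu0 m hm) * a : Fˣ) : F) := by
          simp [h4, h1]
        rw [h5, hiv, hiv, hπ, ha, e3]
    obtain ⟨C, hC⟩ := int_of_conj h3
    exact ⟨C, by rw [← hC, hiv, ha]⟩
  obtain ⟨C, hC⟩ := hCint
  have n1 := hNinv _ π hπ x
  rw [e1] at n1
  have hc := hcorr _ π hπ
  rw [Units.val_mk0, h1, if_neg hne1, sum_three _ hxy hxz hyz, e1, e2, e3, n1, hC] at hc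
  rw [sum_three _ hxy hxz hyz, n1, hC] at hsum1 hsum2
  rw [sum_three _ hxy hxz hyz, n1] at htot
  have hNx := hNpos x
  have hNz := hNpos z
  have hNx0 : (N x : ℂ) ≠ 0 := by
    have : N x ≠ 0 := by omega
    exact_mod_cast this
  -- the sum of the swapped values
  have hk : ∃ k : ℤ, v x + v y = k := by
    refine rat_int ((hvint x).add (hvint y)) (m := (N x : ℤ)) (by positivity)
      (n := (Fintype.card F : ℤ) - N z * C) ?_
    push_cast
    linear_combination hsum1
  obtain ⟨k, hk⟩ := hk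
  have hE : ∃ E : ℤ, (v x - v y) ^ 2 = E := by
    refine rat_int (((hvint x).sub (hvint y)).pow 2) (m := (N x : ℤ)) (by positivity)
      (n := (Fintype.card F : ℤ) ^ 2) ?_
    push_cast
    linear_combination hsum2 - hc
  obtain ⟨E, hE⟩ := hE
  have q1 : 2 * (N x : ℤ) + N z = (p : ℤ) ^ n - 1 := by
    have h3 : 2 * (N x : ℂ) + N z = (Fintype.card F : ℂ) - 1 := by linear_combination htot
    rw [hcard] at h3
    exact_mod_cast h3
  have q2 : (N x : ℤ) * k = (p : ℤ) ^ n - N z * C := by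
    have h3 : (N x : ℂ) * k = (Fintype.card F : ℂ) - N z * C := by
      rw [← hk]; linear_combination hsum1
    rw [hcard] at h3
    exact_mod_cast h3
  have q3 : (N x : ℤ) * k ^ 2 = ((p : ℤ) ^ n) ^ 2 - 2 * N z * C ^ 2 := by
    have h3 : (N x : ℂ) * k ^ 2 = (Fintype.card F : ℂ) ^ 2 - 2 * N z * C ^ 2 := by
      rw [← hk]; linear_combination hsum2 + hc
    rw [hcard] at h3
    exact_mod_cast h3
  have q4 : (N x : ℤ) * E = ((p : ℤ) ^ n) ^ 2 := by
    have h3 : (N x : ℂ) * E = (Fintype.card F : ℂ) ^ 2 := by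
      rw [← hE]; linear_combination hsum2 - hc
    rw [hcard] at h3
    exact_mod_cast h3
  have hC0 : C ≠ 0 := by
    rintro rfl
    have h3 : (N x : ℂ) * (2 * (v x * v y)) = 0 := by
      rw [Int.cast_zero] at hc
      linear_combination hc
    rcases mul_eq_zero.1 h3 with h4 | h4
    · exact hNx0 h4
    · have h5 : v x * v y = 0 := by
        rcases mul_eq_zero.1 h4 with h6 | h6
        · norm_num at h6
        · exact h6
      rcases mul_eq_zero.1 h5 with h6 | h6
      · apply hxz; apply hv; rw [h6, hC]; simp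
      · apply hyz; apply hv; rw [h6, hC]; simp
  exact arith_swap hp hp5 hn (by exact_mod_cast hNx) (by exact_mod_cast hNz) q1 q2 q3 q4 hC0

end

end Run7.h803
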