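import Pool.Agent.Run7.h803.Quad

open Finset

namespace Run7.h803

set_option linter.unusedSectionVars false

section rel

variable {K L : Type*} [Field K] [Field L] [Fintype K] [Fintype L] [Algebra K L]

/-- The additive character of `L` obtained by composing with the trace. -/
noncomputable def lift (L : Type*) [Field L] [Algebra K L] (ψ : AddChar K ℂ) : AddChar L ℂ :=
  ψ.compAddMonoidHom (Algebra.trace K L).toAddMonoidHom

omit [Fintype K] [Fintype L] in
theorem lift_apply (ψ : AddChar K ℂ) (x : L) : lift L ψ x = ψ (Algebra.trace K L x) := rfl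

omit [Fintype K] [Fintype L] in
theorem lift_alg (ψ : AddChar K ℂ) (y : K) (x : L) :
    lift L ψ (algebraMap K L y * x) = ψ (y * Algebra.trace K L x) := by
  rw [lift_apply, ← Algebra.smul_def, map_smul, smul_eq_mul]

/-- The set of trace-zero elements is a `K`-line. -/
theorem ker_trace (h2 : Module.finrank K L = 2) (hK2 : (2 : K) ≠ 0) {ε : L} (hε0 : ε ≠ 0)
    (hε : Algebra.trace K L ε = 0) (x : L) :
    Algebra.trace K L x = 0 ↔ ∃ z : K, x = algebraMap K L z * ε := by
  constructor
  · intro h
    obtain ⟨⟨x1, z⟩, rfl⟩ := (par_bij h2 hK2 hε0 hε).2 x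
    rw [par_trace h2 hε] at h
    have : x1 = 0 := by
      rcases mul_eq_zero.1 h with h' | h'
      · exact absurd h' hK2
      · exact h'
    refine ⟨z, ?_⟩
    unfold par
    simp [this]
  · rintro ⟨z, rfl⟩
    rw [← Algebra.smul_def, map_smul, hε, smul_zero]

/-- Sums over affine `K`-lines. -/
theorem line_sum (h2 : Module.finrank K L = 2) (hK2 : (2 : K) ≠ 0) {ψ : AddChar K ℂ} {s : ℕ}
    (hψ : ψ.IsPrimitive) (hb : Function.Bijective (fun x : K => x ^ s)) (a0 g : L) (hg : g ≠ 0) :
    (∃ b : K, ∑ y : K, W (lift L ψ) s (a0 + algebraMap K L y * g) =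
      (Fintype.card K : ℂ) * W ψ s b) ∨
    ∑ y : K, W (lift L ψ) s (a0 + algebraMap K L y * g) = (Fintype.card K : ℂ) ^ 2 := by
  classical
  obtain ⟨ε, δ, hε0, hε, -, -⟩ := exists_eps h2 hK2
  have e1 : ∑ y : K, W (lift L ψ) s (a0 + algebraMap K L y * g) =
      ∑ x : L, if Algebra.trace K L (g * x) = 0 then
        (Fintype.card K : ℂ) * lift L ψ (x ^ s - a0 * x) else 0 := by
    unfold W
    rw [Finset.sum_comm]
    refine Finset.sum_congr rfl fun x _ => ?_
    have h3 : ∀ y : K, lift L ψ (x ^ s - (a0 + algebraMap K L y * g) * x) =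
        lift L ψ (x ^ s - a0 * x) * ψ (y * (-Algebra.trace K L (g * x))) := by
      intro y
      rw [← map_neg, ← lift_alg, ← AddChar.map_add_eq_mul]
      congr 1
      ring
    simp only [h3]
    rw [← Finset.mul_sum, sum_psi_mul hψ]
    simp only [neg_eq_zero]
    split_ifs <;> ring
  have e2 : ∑ x : L, (if Algebra.trace K L (g * x) = 0 then
        (Fintype.card K : ℂ) * lift L ψ (x ^ s - a0 * x) else 0) =
      (Fintype.card K : ℂ) * ∑ z : K, ψ (z ^ s * Algebra.trace K L ((ε / g) ^ s) -
        Algebra.trace K L (a0 * (ε / g)) * z) := by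
    rw [← Finset.sum_filter, ← Finset.mul_sum]
    congr 1
    symm
    refine Finset.sum_bij (fun z _ => algebraMap K L z * (ε / g)) ?_ ?_ ?_ ?_
    · intro z _
      rw [Finset.mem_filter]
      refine ⟨Finset.mem_univ _, ?_⟩
      rw [ker_trace h2 hK2 hε0 hε]
      exact ⟨z, by field_simp⟩
    · intro z _ z' _ h
      have h3 := mul_right_cancel₀ (div_ne_zero hε0 hg) h
      exact FaithfulSMul.algebraMap_injective K L h3
    · intro x hx
      rw [Finset.mem_filter] at hx
      obtain ⟨z, hz⟩ := (ker_trace h2 hK2 hε0 hε _).1 hx.2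
      refine ⟨z, Finset.mem_univ _, ?_⟩
      field_simp
      rw [← hz]
    · intro z _
      rw [lift_apply]
      congr 1
      rw [mul_pow, map_sub, ← map_pow, ← Algebra.smul_def, map_smul, smul_eq_mul]
      congr 1
      have : a0 * (algebraMap K L z * (ε / g)) = z • (a0 * (ε / g)) := by
        rw [Algebra.smul_def]; ring
      rw [this, map_smul, smul_eq_mul, mul_comm]
  rw [e1, e2]
  by_cases hτ : Algebra.trace K L ((ε / g) ^ s) = 0
  · rw [hτ]
    by_cases hc : Algebra.trace K L (a0 * (ε / g)) = 0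
    · right
      rw [hc]
      simp [sq]
    · left
      refine ⟨0, ?_⟩
      rw [W_zero hψ hb]
      have h4 : ∀ z : K, ψ (z ^ s * 0 - Algebra.trace K L (a0 * (ε / g)) * z) =
          ψ (z * (-Algebra.trace K L (a0 * (ε / g)))) := by
        intro z
        congr 1
        ring
      simp only [h4]
      rw [sum_psi_mul hψ, if_neg (neg_ne_zero.2 hc)]
  · left
    exact ⟨_, by rw [sum_scaled hb hτ]⟩

/-- Lower bound for the spectrum when the power map is additive on the subfield. -/
theorem niho_bound (h2 : Module.finrank K L = 2) {ψ : AddChar L ℂ} {s : ℕ}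
    (hb : Function.Bijective (fun x : L => x ^ s))
    (hadd : ∀ y z : K, (y + z) ^ s = y ^ s + z ^ s) (a : L) {wa : ℤ}
    (hw : W ψ s a = (wa : ℂ)) : -(Fintype.card K : ℤ) ≤ wa := by
  classical
  have hs0 : s ≠ 0 := s_ne_zero hb
  -- inner sums
  have inner : ∀ x : L, ∃ n : ℕ, ∑ y : K, ψ ((algebraMap K L y * x) ^ s -
      a * (algebraMap K L y * x)) = (n : ℂ) := by
    intro x
    let χ : AddChar K ℂ :=
      { toFun := fun y => ψ ((algebraMap K L y * x) ^ s - a * (algebraMap K L y * x))
        map_zero_eq_one' := by simp [zero_pow hs0]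
        map_add_eq_mul' := by
          intro y z
          rw [← AddChar.map_add_eq_mul]
          congr 1
          rw [mul_pow, mul_pow, mul_pow, ← map_pow, ← map_pow, ← map_pow, hadd, map_add, map_add]
          ring }
    have h3 := AddChar.sum_eq_ite χ
    have h4 : ∑ y : K, ψ ((algebraMap K L y * x) ^ s - a * (algebraMap K L y * x)) =
      ∑ y : K, χ y := rfl
    rw [h4, h3]
    split_ifs
    · exact ⟨_, rfl⟩
    · exact ⟨0, by simp⟩
  choose n hn using inner
  have hS : ∑ x : L, ∑ y : K, ψ ((algebraMap K L y * x) ^ s - a * (algebraMap K L y * x)) =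
      (Fintype.card L : ℂ) + ((Fintype.card K : ℂ) - 1) * wa := by
    rw [Finset.sum_comm, ← Finset.add_sum_erase _ _ (Finset.mem_univ (0 : K))]
    congr 1
    · simp [zero_pow hs0]
    · have h3 : ∀ y ∈ univ.erase (0 : K), ∑ x : L, ψ ((algebraMap K L y * x) ^ s -
          a * (algebraMap K L y * x)) = wa := by
        intro y hy
        have hy0 : algebraMap K L y ≠ 0 := by
          rw [Ne, map_eq_zero]
          exact (Finset.mem_erase.1 hy).1
        rw [← hw]
        unfold W
        exact Equiv.sum_comp (Equiv.mulLeft₀ _ hy0) (fun x => ψ (x ^ s - a * x))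
      rw [Finset.sum_congr rfl h3, Finset.sum_const, Finset.card_erase_of_mem (Finset.mem_univ _),
        Finset.card_univ, nsmul_eq_mul, Nat.cast_sub Fintype.card_pos]
      simp
  have h0 : n 0 = Fintype.card K := by
    have h3 := hn 0
    simp only [mul_zero, zero_pow hs0, sub_zero, AddChar.map_zero_eq_one] at h3
    simp only [Finset.sum_const, Finset.card_univ, nsmul_eq_mul, mul_one] at h3
    exact_mod_cast h3.symm
  have hS2 : ((∑ x : L, n x : ℕ) : ℂ) =
      (Fintype.card L : ℂ) + ((Fintype.card K : ℂ) - 1) * wa := by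
    rw [← hS, Nat.cast_sum]
    exact Finset.sum_congr rfl fun x _ => (hn x).symm
  have hS3 : ((∑ x : L, n x : ℕ) : ℤ) =
      (Fintype.card L : ℤ) + ((Fintype.card K : ℤ) - 1) * wa := by
    exact_mod_cast hS2
  have h5 : Fintype.card K ≤ ∑ x : L, n x := by
    rw [← h0]
    exact Finset.single_le_sum (f := n) (fun _ _ => Nat.zero_le _) (Finset.mem_univ 0)
  have h6 : (Fintype.card K : ℤ) ≤
      (Fintype.card L : ℤ) + ((Fintype.card K : ℤ) - 1) * wa := by
    rw [← hS3]
    exact_mod_cast h5
  have h7 : (Fintype.card L : ℤ) = (Fintype.card K : ℤ) ^ 2 := by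
    rw [card_quad h2]; push_cast; rfl
  rw [h7] at h6
  have h8 : (1 : ℤ) < Fintype.card K := by exact_mod_cast Fintype.one_lt_card
  nlinarith

/-- If the power map is additive, there are at most two values. -/
theorem additive_values {ψ : AddChar L ℂ} {s : ℕ}
    (hb : Function.Bijective (fun x : L => x ^ s))
    (hadd : ∀ y z : L, (y + z) ^ s = y ^ s + z ^ s) (a : L) :
    W ψ s a = 0 ∨ W ψ s a = Fintype.card L := by
  classical
  have hs0 : s ≠ 0 := s_ne_zero hb
  let χ : AddChar L ℂ :=
      { toFun := fun y => ψ (y ^ s - a * y)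
        map_zero_eq_one' := by simp [zero_pow hs0]
        map_add_eq_mul' := by
          intro y z
          rw [← AddChar.map_add_eq_mul]
          congr 1
          rw [hadd]
          ring }
  have h3 := AddChar.sum_eq_ite χ
  have h4 : W ψ s a = ∑ y : L, χ y := rfl
  rw [h4, h3]
  split_ifs
  · right; rfl
  · left; rfl

end rel

end Run7.h803
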