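import Mathlib

open Finset

namespace Run7.h803

set_option linter.unusedSectionVars false

/-- The Weil sum of the binomial `x ^ s - a x` with respect to an additive character. -/
noncomputable def W {F : Type*} [Field F] [Fintype F] (ψ : AddChar F ℂ) (s : ℕ) (a : F) : ℂ :=
  ∑ x : F, ψ (x ^ s - a * x)

section
variable {F : Type*} [Field F] [Fintype F] {ψ : AddChar F ℂ} {s : ℕ}

theorem sum_psi_mul (hψ : ψ.IsPrimitive) (b : F) [Decidable (b = 0)] :
    ∑ x : F, ψ (x * b) = if b = 0 then (Fintype.card F : ℂ) else 0 := by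
  classical
  rw [AddChar.sum_mulShift b hψ]
  push_cast
  congr

theorem s_ne_zero (hb : Function.Bijective (fun x : F => x ^ s)) : s ≠ 0 := by
  rintro rfl
  have h := hb.1 (a₁ := (0 : F)) (a₂ := 1) (by simp)
  exact zero_ne_one h

theorem neg_pow_s (hs : Odd s) (x : F) : (-x) ^ s = - x ^ s := hs.neg_pow x

/-- The inverse of the power permutation. -/
noncomputable def root (hb : Function.Bijective (fun x : F => x ^ s)) : F ≃ F :=
  (Equiv.ofBijective _ hb).symm

theorem root_pow (hb : Function.Bijective (fun x : F => x ^ s)) (x : F) :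
    (root hb x) ^ s = x := (Equiv.ofBijective _ hb).apply_symm_apply x

theorem pow_root (hb : Function.Bijective (fun x : F => x ^ s)) (x : F) :
    root hb (x ^ s) = x := (Equiv.ofBijective _ hb).symm_apply_apply x

theorem root_ne_zero (hb : Function.Bijective (fun x : F => x ^ s)) {x : F} (hx : x ≠ 0) :
    root hb x ≠ 0 := by
  intro h
  have := root_pow hb x
  rw [h, zero_pow (s_ne_zero hb)] at this
  exact hx this.symm

theorem sum_pow_eq {M : Type*} [AddCommMonoid M] (hb : Function.Bijective (fun x : F => x ^ s))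
    (f : F → M) : ∑ x : F, f (x ^ s) = ∑ x : F, f x :=
  (Equiv.ofBijective _ hb).sum_comp f

theorem W_zero (hψ : ψ.IsPrimitive) (hb : Function.Bijective (fun x : F => x ^ s)) :
    W ψ s 0 = 0 := by
  classical
  have h := sum_psi_mul hψ (1 : F)
  simp only [W, zero_mul, sub_zero]
  rw [sum_pow_eq hb (fun x => ψ x)]
  simpa using h

theorem sum_W (hψ : ψ.IsPrimitive) (hb : Function.Bijective (fun x : F => x ^ s)) :
    ∑ a : F, W ψ s a = Fintype.card F := by
  classical
  simp only [W]
  rw [Finset.sum_comm]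
  have h : ∀ x : F, ∑ a : F, ψ (x ^ s - a * x) = if x = 0 then (Fintype.card F : ℂ) else 0 := by
    intro x
    have h1 : ∀ a : F, ψ (x ^ s - a * x) = ψ (x ^ s) * ψ (a * (-x)) := by
      intro a
      rw [← AddChar.map_add_eq_mul]
      congr 1
      ring
    simp only [h1]
    rw [← Finset.mul_sum, sum_psi_mul hψ]
    by_cases hx : x = 0
    · subst hx
      simp [zero_pow (s_ne_zero hb)]
    · simp [hx]
  simp [h]

theorem corr_W (hψ : ψ.IsPrimitive) (hb : Function.Bijective (fun x : F => x ^ s)) (hs : Odd s)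
    (u : F) [Decidable (u = 1)] :
    ∑ a : F, W ψ s a * W ψ s (u * a) = if u = 1 then (Fintype.card F : ℂ) ^ 2 else 0 := by
  classical
  have h0 : ∀ a : F, W ψ s a * W ψ s (u * a) =
      ∑ x : F, ∑ y : F, ψ (x ^ s + y ^ s) * ψ (a * (-(x + u * y))) := by
    intro a
    simp only [W]
    rw [Finset.sum_mul_sum]
    refine Finset.sum_congr rfl fun x _ => Finset.sum_congr rfl fun y _ => ?_
    rw [← AddChar.map_add_eq_mul, ← AddChar.map_add_eq_mul]
    congr 1
    ring
  simp only [h0]
  rw [Finset.sum_comm]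
  have h1 : ∀ x : F, ∑ a : F, ∑ y : F, ψ (x ^ s + y ^ s) * ψ (a * (-(x + u * y))) =
      ∑ y : F, ψ (x ^ s + y ^ s) * (if x + u * y = 0 then (Fintype.card F : ℂ) else 0) := by
    intro x
    rw [Finset.sum_comm]
    refine Finset.sum_congr rfl fun y _ => ?_
    rw [← Finset.mul_sum, sum_psi_mul hψ]
    simp only [neg_eq_zero]
  simp only [h1]
  rw [Finset.sum_comm]
  have h2 : ∀ y : F, ∑ x : F, ψ (x ^ s + y ^ s) * (if x + u * y = 0 then (Fintype.card F : ℂ) else 0)
      = (Fintype.card F : ℂ) * ψ (y ^ s * (1 - u ^ s)) := by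
    intro y
    rw [Finset.sum_eq_single (-(u * y))]
    · rw [if_pos (by ring), neg_pow_s hs, mul_comm]
      congr 2
      rw [mul_pow]
      ring
    · intro x _ hx
      rw [if_neg, mul_zero]
      intro h
      apply hx
      linear_combination h
    · intro h
      exact absurd (Finset.mem_univ _) h
  simp only [h2]
  rw [← Finset.mul_sum, sum_pow_eq hb (fun x => ψ (x * (1 - u ^ s))), sum_psi_mul hψ]
  have h3 : (1 - u ^ s = 0) ↔ u = 1 := by
    constructor
    · intro h
      apply hb.1
      simp only [one_pow]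
      linear_combination -h
    · rintro rfl
      simp
  by_cases hu : u = 1
  · rw [if_pos (h3.2 hu), if_pos hu]
    ring
  · rw [if_neg (fun h => hu (h3.1 h)), if_neg hu, mul_zero]

/-- The polynomial `t ^ s + (1 - t) ^ s`. -/
noncomputable def Fp (s : ℕ) (t : F) : F := t ^ s + (1 - t) ^ s

theorem Fp_ne_zero (hb : Function.Bijective (fun x : F => x ^ s)) (hs : Odd s) (t : F) :
    Fp s t ≠ 0 := by
  intro h
  have h1 : t ^ s = (t - 1) ^ s := by
    have : (t - 1) ^ s = -(1 - t) ^ s := by
      rw [← neg_pow_s hs]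
      congr 1
      ring
    rw [this]
    unfold Fp at h
    linear_combination h
  have h2 : t = t - 1 := hb.1 h1
  have : (1 : F) = 0 := by linear_combination h2
  exact one_ne_zero this

/-- The multiplier attached to `t`. -/
noncomputable def cf (hb : Function.Bijective (fun x : F => x ^ s)) (t : F) : F :=
  (root hb (Fp s t))⁻¹

theorem cf_ne_zero (hb : Function.Bijective (fun x : F => x ^ s)) (hs : Odd s) (t : F) :
    cf hb t ≠ 0 := inv_ne_zero (root_ne_zero hb (Fp_ne_zero hb hs t))

theorem sum_scaled (hb : Function.Bijective (fun x : F => x ^ s)) {z : F} (hz : z ≠ 0)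
    (a : F) : ∑ u : F, ψ (u ^ s * z - a * u) = W ψ s (a * (root hb z)⁻¹) := by
  have hr := root_ne_zero hb hz
  unfold W
  rw [← Equiv.sum_comp (Equiv.mulRight₀ (root hb z) hr)
    (fun v => ψ (v ^ s - a * (root hb z)⁻¹ * v))]
  refine Finset.sum_congr rfl fun u _ => ?_
  change ψ (u ^ s * z - a * u) =
    ψ ((u * root hb z) ^ s - a * (root hb z)⁻¹ * (u * root hb z))
  rw [mul_pow, root_pow]
  congr 2
  field_simp

theorem W_sq (hb : Function.Bijective (fun x : F => x ^ s)) (hs : Odd s)
    (a : F) : W ψ s a ^ 2 = ∑ t : F, W ψ s (a * cf hb t) := by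
  classical
  have h1 : W ψ s a ^ 2 = ∑ u : F, ∑ x : F, ψ (x ^ s + (u - x) ^ s - a * u) := by
    rw [sq]
    simp only [W]
    rw [Finset.sum_mul_sum]
    conv_rhs => rw [Finset.sum_comm]
    refine Finset.sum_congr rfl fun x _ => ?_
    rw [← Equiv.sum_comp (Equiv.addLeft x) (fun u => ψ (x ^ s + (u - x) ^ s - a * u))]
    refine Finset.sum_congr rfl fun y _ => ?_
    rw [← AddChar.map_add_eq_mul]
    simp only [Equiv.coe_addLeft]
    congr 1
    rw [add_sub_cancel_left]
    ring
  rw [h1]
  have h2 : ∀ u : F, ∑ x : F, ψ (x ^ s + (u - x) ^ s - a * u) =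
      ∑ t : F, ψ (u ^ s * Fp s t - a * u) := by
    intro u
    by_cases hu : u = 0
    · subst hu
      refine Finset.sum_congr rfl fun x _ => ?_
      rw [zero_pow (s_ne_zero hb), zero_sub, neg_pow_s hs]
      congr 1
      ring
    · rw [← Equiv.sum_comp (Equiv.mulLeft₀ u hu) (fun x => ψ (x ^ s + (u - x) ^ s - a * u))]
      refine Finset.sum_congr rfl fun t _ => ?_
      change ψ ((u * t) ^ s + (u - u * t) ^ s - a * u) = ψ (u ^ s * Fp s t - a * u)
      congr 2
      unfold Fp
      have : u - u * t = u * (1 - t) := by ring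
      rw [this, mul_pow, mul_pow]
      ring
  simp only [h2]
  rw [Finset.sum_comm]
  refine Finset.sum_congr rfl fun t _ => ?_
  rw [sum_scaled hb (Fp_ne_zero hb hs t) a]
  rfl

theorem cf_eq_one_iff (hb : Function.Bijective (fun x : F => x ^ s)) (t : F) :
    cf hb t = 1 ↔ Fp s t = 1 := by
  unfold cf
  rw [inv_eq_one]
  constructor
  · intro h
    have := root_pow hb (Fp s t)
    rw [h, one_pow] at this
    exact this.symm
  · intro h
    rw [h]
    have := pow_root hb (1 : F)
    rwa [one_pow] at this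

end

end Run7.h803
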